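import Pool.Agent.U979.TW.TowFin

/-!
# Two exceptional values at a given distance
-/

set_option autoImplicit false

namespace Pool.Agent.U979.TW

open Pool.Agent.H301R2.SSE Finset
open scoped Pointwise

/-- At most `r + 1` exceptional `k` such that `k + δ` is exceptional. -/
theorem group_pairs {ι : Type*} [Fintype ι] (t : ι → ℂ)
    (ht : ∀ k : ι → ℤ, k ≠ 0 → Transcendental ℚ (∏ i, t i ^ k i)) (v : ℂ) (hv : v ≠ 0)
    (δ : ι → ℤ) (hδ : δ ≠ 0) (S : Finset (ι → ℤ))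
    (hS : ∀ k ∈ S, v * ∏ i, t i ^ k i ∈ Lt ∧ v * ∏ i, t i ^ (k + δ) i ∈ Lt) :
    S.card ≤ Fintype.card ι + 1 := by
  classical
  have ht0 : ∀ i, t i ≠ 0 := by
    intro i h
    have h1 := ht (Pi.single i 1) (by
      intro h
      have := congrFun h i
      simp at this)
    apply h1
    have : ∏ j, t j ^ (Pi.single i (1 : ℤ) : ι → ℤ) j = 0 := by
      apply Finset.prod_eq_zero (Finset.mem_univ i)
      rw [Pi.single_eq_same, zpow_one, h]
    rw [this]
    exact isAlgebraic_zero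
  have hp : ∀ k : ι → ℤ, ∏ i, t i ^ k i ≠ 0 := fun k =>
    Finset.prod_ne_zero_iff.mpr (fun i _ => zpow_ne_zero _ (ht0 i))
  set f : (ι → ℤ) → ℂ := fun k => v * ∏ i, t i ^ k i with hf
  have hq : ∀ k l : ι → ℤ, f k / f l = ∏ i, t i ^ (k - l) i := by
    intro k l
    simp only [hf]
    rw [mul_div_mul_left _ _ hv, ← Finset.prod_div_distrib]
    apply Finset.prod_congr rfl
    intro i _
    rw [Pi.sub_apply, zpow_sub₀ (ht0 i)]
  have hinj : Function.Injective f := by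
    intro k l hkl
    by_contra hne
    apply ht (k - l) (sub_ne_zero.mpr hne)
    rw [← hq, hkl, div_self (mul_ne_zero hv (hp l))]
    exact isAlgebraic_one
  set A := (S ∪ S.image (fun k => k + δ)).image f with hA
  have hAk : ∀ s ∈ A, ∃ k, s = f k := by
    intro s hs
    rw [hA, Finset.mem_image] at hs
    obtain ⟨k, _, rfl⟩ := hs
    exact ⟨k, rfl⟩
  have h0 : ∀ s ∈ A, s ≠ 0 := by
    intro s hs
    obtain ⟨k, rfl⟩ := hAk s hs
    exact mul_ne_zero hv (hp k)
  have htr : ∀ s ∈ A, ∀ u ∈ A, s ≠ u → Transcendental ℚ (s / u) := by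
    intro s hs u hu hsu
    obtain ⟨k, rfl⟩ := hAk s hs
    obtain ⟨l, rfl⟩ := hAk u hu
    rw [hq]
    apply ht
    exact sub_ne_zero.mpr (fun h => hsu (by rw [h]))
  have hAL : ∀ b ∈ A, b ∈ Lt := by
    intro b hb
    rw [hA, Finset.mem_image] at hb
    obtain ⟨k, hk, rfl⟩ := hb
    rw [Finset.mem_union, Finset.mem_image] at hk
    rcases hk with hk | ⟨l, hl, rfl⟩
    · exact (hS k hk).1
    · exact (hS l hl).2
  have hrk : rk A ≤ Fintype.card ι := rk_le t ht0 v hv A hAk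
  have hd : io (∏ i, t i ^ δ i) ≠ 0 := by
    intro h
    exact ht δ hδ ((io_eq_zero (hp δ)).mp h)
  have h1 := shift_card A h0 htr A (Finset.Subset.refl _) hAL (io (∏ i, t i ^ δ i)) hd (S.image f) (by
    intro x hx
    rw [Finset.mem_image] at hx
    obtain ⟨k, hk, rfl⟩ := hx
    exact Finset.mem_image_of_mem f (Finset.mem_union_left _ hk)) (by
    intro x hx
    rw [Finset.mem_image] at hx
    obtain ⟨k, hk, rfl⟩ := hx
    refine ⟨f (k + δ), Finset.mem_image_of_mem f (Finset.mem_union_right _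
      (Finset.mem_image_of_mem _ hk)), ?_⟩
    rw [← io_mul (mul_ne_zero hv (hp k)) (hp δ)]
    congr 1
    simp only [hf]
    rw [mul_assoc, ← Finset.prod_mul_distrib]
    congr 1
    apply Finset.prod_congr rfl
    intro i _
    rw [Pi.add_apply, zpow_add₀ (ht0 i)])
  rw [Finset.card_image_of_injective _ hinj] at h1
  exact h1.trans (Nat.add_le_add_right hrk 1)

/-- At most `m s + 1` pairs of exceptional towers at a given distance. -/
theorem tower_pairs {m s : ℕ} (a : ℝ) (ha : 0 < a) (ha1 : a ≠ 1) (b : Fin m → ℝ)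
    (hb : ∀ i, 0 < b i) (hba : ∀ i, IsAlgebraic ℚ (b i))
    (hbi : ∀ n : Fin m → ℤ, ∏ i, b i ^ n i = 1 → ∀ i, n i = 0)
    (c : Fin s → ℝ) (hc : ∀ j, IsAlgebraic ℚ (c j))
    (hci : ∀ (q : ℚ) (p : Fin s → ℚ), ∑ j, (p j : ℝ) * c j = q → ∀ j, p j = 0)
    (δ : Fin m × Fin s → ℤ) (hδ : δ ≠ 0) (S : Finset (Fin m × Fin s → ℤ))
    (hS : ∀ k ∈ S, ((Real.log (a ^ (∏ i, b i ^ (∑ j, (k (i, j) : ℝ) * c j))) : ℝ) : ℂ) ∈ Lt ∧
      ((Real.log (a ^ (∏ i, b i ^ (∑ j, ((k + δ) (i, j) : ℝ) * c j))) : ℝ) : ℂ) ∈ Lt) :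
    S.card ≤ m * s + 1 := by
  have h1 := group_pairs (fun p : Fin m × Fin s => (((b p.1 ^ c p.2 : ℝ) : ℂ))) (by
    intro k hk halg
    apply hk
    have h2 : IsAlgebraic ℚ (((∏ p : Fin m × Fin s, (b p.1 ^ c p.2) ^ k p : ℝ)) : ℂ) := by
      rw [Complex.ofReal_prod]
      simpa [Complex.ofReal_zpow] using halg
    have h3 := ofReal_alg h2
    rw [← real_eq b hb c k] at h3
    have h4 := baker_mat b hb hba hbi c hc hci (fun i j => k (i, j)) h3
    funext p
    exact h4 p.1 p.2) ((Real.log a : ℝ) : ℂ) (log_ne ha ha1) δ hδ S (by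
    intro k hk
    have := hS k hk
    rw [tower_eq a ha b hb c, tower_eq a ha b hb c] at this
    exact this)
  rwa [Fintype.card_prod, Fintype.card_fin, Fintype.card_fin] at h1

end Pool.Agent.U979.TW
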