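import Pool.Agent.U979.TW.Count

/-!
# The multiplicative energy of a set of linear forms in logarithms
-/

set_option autoImplicit false

namespace Pool.Agent.U979.TW

open Pool.Agent.H301R2.SSE Finset
open scoped Pointwise

/-- Three elements `b, b', b''` of the plane of `b1, b2` which can be translated to the same
element `c` coincide in pairs. -/
theorem two_aux {b1 b2 c b b' b'' : ℂ} (h12 : Transcendental ℚ (b1 / b2))
    (hbb' : Transcendental ℚ (b' / b)) (hbb'' : Transcendental ℚ (b'' / b))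
    (hb'b'' : Transcendental ℚ (b'' / b')) (hc0 : c ≠ 0)
    (hd : Dep b b' b'')
    (h1 : c / b * b1 ∈ Lt) (h2 : c / b * b2 ∈ Lt) (h1' : c / b' * b1 ∈ Lt) (h2' : c / b' * b2 ∈ Lt)
    (h1'' : c / b'' * b1 ∈ Lt) (h2'' : c / b'' * b2 ∈ Lt) : False := by
  have hb0 : b ≠ 0 := by rintro rfl; exact hbb' (by rw [div_zero]; exact isAlgebraic_zero)
  have hb'0 : b' ≠ 0 := by rintro rfl; exact hb'b'' (by rw [div_zero]; exact isAlgebraic_zero)
  have hb''0 : b'' ≠ 0 := by rintro rfl; exact hbb'' (by rw [zero_div]; exact isAlgebraic_zero)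
  have hb20 : b2 ≠ 0 := by rintro rfl; exact h12 (by rw [div_zero]; exact isAlgebraic_zero)
  -- `b''` in terms of `b`, `b'`
  obtain ⟨x, y, hx, hy, hxy⟩ := comb hbb' hd
  have hx0 : x ≠ 0 := by
    rintro rfl
    apply hb'b''
    rw [hxy, zero_mul, zero_add, mul_div_assoc, div_self hb'0, mul_one]
    exact hy
  have hy0 : y ≠ 0 := by
    rintro rfl
    apply hbb''
    rw [hxy, zero_mul, add_zero, mul_div_assoc, div_self hb0, mul_one]
    exact hx
  -- the multipliers are dependent
  obtain ⟨a, a', a'', ha, ha', ha'', hne, hsum⟩ := dep3 (ρ := b1 / b2) h12 h2 h2' h2''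
    (by rw [show b1 / b2 * (c / b * b2) = c / b * b1 by field_simp]; exact h1)
    (by rw [show b1 / b2 * (c / b' * b2) = c / b' * b1 by field_simp]; exact h1')
    (by rw [show b1 / b2 * (c / b'' * b2) = c / b'' * b1 by field_simp]; exact h1'')
  have hrel : a * (b' * b'') + a' * (b * b'') + a'' * (b * b') = 0 := by
    have h3 : c * b2 * (a * (b' * b'') + a' * (b * b'') + a'' * (b * b')) = 0 := by
      have : c * b2 * (a * (b' * b'') + a' * (b * b'') + a'' * (b * b')) =
          (b * b' * b'') * (a * (c / b * b2) + a' * (c / b' * b2) + a'' * (c / b'' * b2)) := by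
        field_simp
      rw [this, hsum, mul_zero]
    rcases mul_eq_zero.mp h3 with h4 | h4
    · exact absurd h4 (mul_ne_zero hc0 hb20)
    · exact h4
  -- polynomial in `θ = b' / b`
  set θ := b' / b with hθ
  have hb' : b' = θ * b := by rw [hθ]; field_simp
  have hpol : a' * x + (a * x + a' * y + a'') * θ + a * y * θ ^ 2 = 0 := by
    have h3 : b ^ 2 * (a' * x + (a * x + a' * y + a'') * θ + a * y * θ ^ 2) = 0 := by
      rw [← hrel, hxy, hb']
      ring
    rcases mul_eq_zero.mp h3 with h4 | h4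
    · exact absurd h4 (pow_ne_zero 2 hb0)
    · exact h4
  have : Algebra.IsAlgebraic ℚ QB := algebraicClosure.isAlgebraic ℚ ℂ
  have hθ' : Transcendental QB θ := by
    intro h
    apply hbb'
    exact h.restrictScalars ℚ
  let p0 : QB := ⟨a' * x, mem_QB.mpr (ha'.mul hx)⟩
  let p1 : QB := ⟨a * x + a' * y + a'', mem_QB.mpr (((ha.mul hx).add (ha'.mul hy)).add ha'')⟩
  let p2 : QB := ⟨a * y, mem_QB.mpr (ha.mul hy)⟩
  have hP := (transcendental_iff.mp hθ') (Polynomial.C p0 + Polynomial.C p1 * Polynomial.X +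
    Polynomial.C p2 * Polynomial.X ^ 2) (by
      simp only [map_add, map_mul, map_pow, Polynomial.aeval_C, Polynomial.aeval_X]
      exact hpol)
  have e0 : p0 = 0 := by
    have := congrArg (fun p => Polynomial.coeff p 0) hP
    simpa [Polynomial.coeff_X_zero] using this
  have e1 : p1 = 0 := by
    have := congrArg (fun p => Polynomial.coeff p 1) hP
    simpa [Polynomial.coeff_X_one, Polynomial.coeff_X_pow] using this
  have e2 : p2 = 0 := by
    have := congrArg (fun p => Polynomial.coeff p 2) hP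
    simpa [Polynomial.coeff_X, Polynomial.coeff_X_pow, Polynomial.coeff_C] using this
  have f0 : a' * x = 0 := congrArg (fun z : QB => (z : ℂ)) e0
  have f1 : a * x + a' * y + a'' = 0 := congrArg (fun z : QB => (z : ℂ)) e1
  have f2 : a * y = 0 := congrArg (fun z : QB => (z : ℂ)) e2
  have g0 : a' = 0 := (mul_eq_zero.mp f0).resolve_right hx0
  have g2 : a = 0 := (mul_eq_zero.mp f2).resolve_right hy0
  have g1 : a'' = 0 := by rw [g0, g2] at f1; simpa using f1
  rcases hne with h | h | h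
  · exact h g2
  · exact h g0
  · exact h g1

/-- the number of elements of `B` which stay in `B` under the translation by `δ` -/
def sh {V : Type*} [AddCommGroup V] [DecidableEq V] (B : Finset V) (δ : V) : ℕ :=
  (B.filter (fun b => b + δ ∈ B)).card

section abstract

variable {V : Type*} [AddCommGroup V] [DecidableEq V] (B : Finset V)

theorem sum_sh : ∑ δ ∈ B - B, sh B δ = B.card ^ 2 := by
  have h1 : (B ×ˢ B).card = ∑ δ ∈ B - B, ((B ×ˢ B).filter (fun p => p.2 - p.1 = δ)).card := by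
    apply Finset.card_eq_sum_card_fiberwise
    intro p hp
    rw [Finset.mem_coe, Finset.mem_product] at hp
    exact Finset.mem_coe.mpr (Finset.sub_mem_sub hp.2 hp.1)
  rw [Finset.card_product, ← sq] at h1
  rw [h1]
  apply Finset.sum_congr rfl
  intro δ _
  unfold sh
  apply Finset.card_bij (fun b _ => (b, b + δ))
  · intro b hb
    rw [Finset.mem_filter] at hb ⊢
    exact ⟨Finset.mem_product.mpr hb, by simp⟩
  · intro b _ b' _ h
    exact (Prod.mk.inj h).1
  · intro p hp
    rw [Finset.mem_filter, Finset.mem_product] at hp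
    refine ⟨p.1, ?_, ?_⟩
    · rw [Finset.mem_filter, ← hp.2]
      exact ⟨hp.1.1, by simpa using hp.1.2⟩
    · rw [← hp.2]
      exact Prod.ext rfl (by simp)

/-- The property used: at most two solutions. -/
def Two : Prop := ∀ b1 ∈ B, ∀ b2 ∈ B, b1 ≠ b2 → ∀ c ∈ B,
  (B.filter (fun b => c ≠ b ∧ b1 + (c - b) ∈ B ∧ b2 + (c - b) ∈ B)).card ≤ 2

theorem sum_cube (h : Two B) :
    ∑ δ ∈ (B - B).erase 0, sh B δ * (sh B δ * (sh B δ - 1)) ≤
      2 * (B.card * (B.card * (B.card - 1))) := by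
  -- quadruples
  set T := ((B.offDiag ×ˢ B) ×ˢ B).filter (fun p : ((V × V) × V) × V =>
    p.1.2 ≠ p.2 ∧ p.1.1.1 + (p.1.2 - p.2) ∈ B ∧ p.1.1.2 + (p.1.2 - p.2) ∈ B) with hT
  have hTle : T.card ≤ 2 * (B.card * (B.card * (B.card - 1))) := by
    have h1 : (B.offDiag ×ˢ B).card = B.card * (B.card * (B.card - 1)) := by
      rw [Finset.card_product, Finset.offDiag_card, ← Nat.mul_sub_one]
      ring
    rw [← h1]
    apply Finset.card_le_mul_card_image_of_maps_to (f := fun p => p.1)
    · intro p hp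
      rw [hT, Finset.mem_filter, Finset.mem_product] at hp
      exact hp.1.1
    · intro q hq
      rw [Finset.mem_product, Finset.mem_offDiag] at hq
      refine le_trans ?_ (h q.1.1 hq.1.1 q.1.2 hq.1.2.1 hq.1.2.2 q.2 hq.2)
      apply Finset.card_le_card_of_injOn (fun p => p.2)
      · intro p hp
        rw [Finset.mem_coe, Finset.mem_filter, hT, Finset.mem_filter, Finset.mem_product] at hp
        obtain ⟨⟨⟨_, hp2⟩, hp3⟩, hp4⟩ := hp
        rw [Finset.mem_coe, Finset.mem_filter, ← hp4]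
        exact ⟨hp2, hp3⟩
      · intro p hp p' hp' hpp
        rw [Finset.mem_coe, Finset.mem_filter] at hp hp'
        exact Prod.ext (hp.2.trans hp'.2.symm) hpp
  refine le_trans ?_ hTle
  have h2 : T.card = ∑ δ ∈ (B - B).erase 0, (T.filter (fun p => p.1.2 - p.2 = δ)).card := by
    apply Finset.card_eq_sum_card_fiberwise
    intro p hp
    rw [Finset.mem_coe, hT, Finset.mem_filter, Finset.mem_product, Finset.mem_product] at hp
    rw [Finset.mem_coe, Finset.mem_erase]
    exact ⟨sub_ne_zero.mpr hp.2.1, Finset.sub_mem_sub hp.1.1.2 hp.1.2⟩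
  rw [h2]
  apply Finset.sum_le_sum
  intro δ hδ
  rw [Finset.mem_erase] at hδ
  set S := B.filter (fun b => b + δ ∈ B) with hS
  have h3 : sh B δ * (sh B δ * (sh B δ - 1)) = (S.offDiag ×ˢ S).card := by
    rw [Finset.card_product, Finset.offDiag_card, ← Nat.mul_sub_one, mul_comm]
    rfl
  rw [h3]
  apply Finset.card_le_card_of_injOn (fun p => ((p.1, p.2 + δ), p.2))
  · intro p hp
    rw [Finset.mem_coe, Finset.mem_product, Finset.mem_offDiag] at hp
    obtain ⟨⟨h5, h6, h7⟩, h8⟩ := hp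
    rw [hS, Finset.mem_filter] at h5 h6 h8
    rw [Finset.mem_coe, Finset.mem_filter, hT, Finset.mem_filter, Finset.mem_product,
      Finset.mem_product, Finset.mem_offDiag]
    simp only [add_sub_cancel_left]
    refine ⟨⟨⟨⟨⟨h5.1, h6.1, h7⟩, h8.2⟩, h8.1⟩, ?_, h5.2, h6.2⟩, trivial⟩
    intro h9
    exact hδ.1 (by simpa using h9)
  · intro p _ p' _ hpp
    have := Prod.mk.inj hpp
    exact Prod.ext (Prod.mk.inj this.1).1 this.2

theorem sum_sh_erase : ∑ δ ∈ (B - B).erase 0, sh B δ ≤ B.card * (B.card - 1) := by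
  rcases B.eq_empty_or_nonempty with rfl | ⟨b0, hb0⟩
  · simp
  have h0 : (0 : V) ∈ B - B := by rw [← sub_self b0]; exact Finset.sub_mem_sub hb0 hb0
  have h1 := Finset.add_sum_erase (B - B) (sh B) h0
  rw [sum_sh] at h1
  have h2 : sh B 0 = B.card := by
    unfold sh
    congr 1
    rw [Finset.filter_eq_self]
    intro b hb
    rwa [add_zero]
  rw [h2] at h1
  rw [Nat.mul_sub_one, ← sq]
  omega

/-- third moments -/
theorem third (h : Two B) : ∑ δ ∈ B - B, sh B δ ^ 3 ≤ 5 * B.card ^ 3 := by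
  rcases B.eq_empty_or_nonempty with rfl | ⟨b0, hb0⟩
  · simp
  have hn : 1 ≤ B.card := Finset.card_pos.mpr ⟨b0, hb0⟩
  have h0 : (0 : V) ∈ B - B := by rw [← sub_self b0]; exact Finset.sub_mem_sub hb0 hb0
  rw [← Finset.add_sum_erase (B - B) _ h0]
  have h2 : sh B 0 = B.card := by
    unfold sh
    congr 1
    rw [Finset.filter_eq_self]
    intro b hb
    rwa [add_zero]
  rw [h2]
  have h3 : ∀ δ ∈ (B - B).erase 0, sh B δ ^ 3 ≤
      2 * (sh B δ * (sh B δ * (sh B δ - 1))) + sh B δ := by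
    intro δ _
    rcases Nat.eq_zero_or_pos (sh B δ) with h | h
    · rw [h]; simp
    · obtain ⟨k, hk⟩ := Nat.exists_eq_add_of_le' h
      rw [hk, Nat.add_sub_cancel]
      nlinarith [Nat.zero_le k, Nat.zero_le (k ^ 3), Nat.zero_le (k ^ 2), Nat.zero_le (k * k)]
  have h4 := Finset.sum_le_sum h3
  rw [Finset.sum_add_distrib, ← Finset.mul_sum] at h4
  have h5 := sum_cube B h
  have h6 := sum_sh_erase B
  obtain ⟨k, hk⟩ := Nat.exists_eq_add_of_le' hn
  rw [hk, Nat.add_sub_cancel] at h5 h6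
  rw [hk]
  have h7 : ∑ δ ∈ (B - B).erase 0, sh B δ ^ 3 ≤
      2 * (2 * ((k + 1) * ((k + 1) * k))) + (k + 1) * k := by
    omega
  nlinarith [Nat.zero_le k, Nat.zero_le (k ^ 3), Nat.zero_le (k ^ 2), h7]

/-- second moments -/
theorem second (h : Two B) :
    (∑ δ ∈ B - B, (sh B δ : ℝ) ^ 2) ≤
      (B.card : ℝ) ^ 2 + 2 * Real.sqrt (2 * B.card) * (B.card * (B.card - 1)) := by
  rcases B.eq_empty_or_nonempty with rfl | ⟨b0, hb0⟩
  · simp
  have hn : 1 ≤ B.card := Finset.card_pos.mpr ⟨b0, hb0⟩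
  have hn' : (1 : ℝ) ≤ B.card := by exact_mod_cast hn
  have h0 : (0 : V) ∈ B - B := by rw [← sub_self b0]; exact Finset.sub_mem_sub hb0 hb0
  rw [← Finset.add_sum_erase (B - B) _ h0]
  have h2 : sh B 0 = B.card := by
    unfold sh
    congr 1
    rw [Finset.filter_eq_self]
    intro b hb
    rwa [add_zero]
  rw [h2]
  set m := Real.sqrt (2 * B.card) with hm
  have hm1 : 1 ≤ m := by
    rw [hm, Real.one_le_sqrt]
    linarith
  have hm0 : 0 < m := by linarith
  have hmm : m * m = 2 * B.card := Real.mul_self_sqrt (by positivity)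
  have h3 : ∀ δ ∈ (B - B).erase 0, (sh B δ : ℝ) ^ 2 ≤
      m * sh B δ + (((sh B δ * (sh B δ * (sh B δ - 1)) : ℕ) : ℝ)) / m := by
    intro δ _
    rw [← sub_nonneg]
    rcases Nat.eq_zero_or_pos (sh B δ) with h | h
    · rw [h]; simp
    · have h1 : ((sh B δ * (sh B δ * (sh B δ - 1)) : ℕ) : ℝ) =
          (sh B δ : ℝ) * ((sh B δ : ℝ) * ((sh B δ : ℝ) - 1)) := by
        push_cast [Nat.cast_sub h]
        rfl
      rw [h1]
      set s : ℝ := (sh B δ : ℝ) with hs
      have hs0 : 0 ≤ s := by positivity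
      have : m * s + s * (s * (s - 1)) / m - s ^ 2 = s * (m ^ 2 + s * (s - 1) - s * m) / m := by
        field_simp
      rw [this]
      apply div_nonneg _ hm0.le
      apply mul_nonneg hs0
      nlinarith [sq_nonneg (2 * s - (1 + m)), sq_nonneg (m - 1)]
  have h4 := Finset.sum_le_sum h3
  rw [Finset.sum_add_distrib, ← Finset.mul_sum, ← Finset.sum_div] at h4
  have h5 : (∑ δ ∈ (B - B).erase 0, ((sh B δ * (sh B δ * (sh B δ - 1)) : ℕ) : ℝ)) ≤
      2 * (B.card * (B.card * (B.card - 1))) := by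
    have := sum_cube B h
    have h6 : ((∑ δ ∈ (B - B).erase 0, sh B δ * (sh B δ * (sh B δ - 1)) : ℕ) : ℝ) ≤
      ((2 * (B.card * (B.card * (B.card - 1))) : ℕ) : ℝ) := by exact_mod_cast this
    rw [Nat.cast_sum] at h6
    refine h6.trans (le_of_eq ?_)
    push_cast [Nat.cast_sub hn]
    rfl
  have h6 : (∑ δ ∈ (B - B).erase 0, (sh B δ : ℝ)) ≤ B.card * (B.card - 1) := by
    have := sum_sh_erase B
    have h7 : ((∑ δ ∈ (B - B).erase 0, sh B δ : ℕ) : ℝ) ≤ ((B.card * (B.card - 1) : ℕ) : ℝ) := by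
      exact_mod_cast this
    rw [Nat.cast_sum] at h7
    refine h7.trans (le_of_eq ?_)
    push_cast [Nat.cast_sub hn]
    rfl
  have h7 : (2 * ((B.card : ℝ) * (B.card * (B.card - 1)))) / m = m * (B.card * (B.card - 1)) := by
    rw [div_eq_iff hm0.ne']
    linear_combination (-(B.card : ℝ) * (B.card - 1)) * hmm
  have h8 := div_le_div_of_nonneg_right h5 hm0.le
  rw [h7] at h8
  have h9 := mul_le_mul_of_nonneg_left h6 hm0.le
  linarith

end abstract

end Pool.Agent.U979.TW
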