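import Pool.Agent.U979.TW.Energy

/-!
# The multiplicative energy of a set of linear forms in logarithms: final bounds
-/

set_option autoImplicit false

namespace Pool.Agent.U979.TW

open Pool.Agent.H301R2.SSE Finset
open scoped Pointwise

open Classical in
/-- the image of `B` modulo the algebraic numbers has the property `Two` -/
theorem two_of (B : Finset ℂ) (h0 : ∀ s ∈ B, s ≠ 0)
    (htr : ∀ s ∈ B, ∀ t ∈ B, s ≠ t → Transcendental ℚ (s / t)) (hB : ∀ b ∈ B, b ∈ Lt) :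
    Two (B.image io) := by
  intro β1 hβ1 β2 hβ2 hne γ hγ
  rw [Finset.mem_image] at hβ1 hβ2 hγ
  obtain ⟨b1, hb1, rfl⟩ := hβ1
  obtain ⟨b2, hb2, rfl⟩ := hβ2
  obtain ⟨c, hc, rfl⟩ := hγ
  have h12 : b1 ≠ b2 := fun h => hne (by rw [h])
  by_contra hcon
  push Not at hcon
  obtain ⟨x, hx, y, hy, z, hz, hxy, hxz, hyz⟩ := Finset.two_lt_card.mp hcon
  rw [Finset.mem_filter, Finset.mem_image] at hx hy hz
  obtain ⟨⟨x, hxB, rfl⟩, hx1, hx2, hx3⟩ := hx
  obtain ⟨⟨y, hyB, rfl⟩, hy1, hy2, hy3⟩ := hy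
  obtain ⟨⟨z, hzB, rfl⟩, hz1, hz2, hz3⟩ := hz
  have hmem : ∀ s ∈ B, ∀ w ∈ B, io s + (io c - io w) ∈ B.image io → c / w * s ∈ Lt := by
    intro s hs w hw h
    rw [Finset.mem_image] at h
    obtain ⟨t, ht, hte⟩ := h
    have h1 : IsAlgebraic ℚ (c / w * s / t) := by
      rw [← io_eq (mul_ne_zero (div_ne_zero (h0 c hc) (h0 w hw)) (h0 s hs)) (h0 t ht),
        io_mul (div_ne_zero (h0 c hc) (h0 w hw)) (h0 s hs), io_div (h0 c hc) (h0 w hw), hte]
      abel
    have ht0 := h0 t ht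
    have h2 : c / w * s = (c / w * s / t) * t := by field_simp
    rw [h2]
    exact Lt_mul h1 (hB t ht)
  have hxy' : x ≠ y := fun h => hxy (by rw [h])
  have hxz' : x ≠ z := fun h => hxz (by rw [h])
  have hyz' : y ≠ z := fun h => hyz (by rw [h])
  -- each of `x`, `y`, `z` depends on `b1`, `b2`
  have hdep : ∀ w ∈ B, io c ≠ io w → io b1 + (io c - io w) ∈ B.image io →
      io b2 + (io c - io w) ∈ B.image io → Dep b1 b2 w := by
    intro w hw hcw h1 h2
    have hρ : Transcendental ℚ (c / w) := by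
      intro h
      exact hcw ((io_eq (h0 c hc) (h0 w hw)).mpr h)
    refine dep3 hρ (hB b1 hb1) (hB b2 hb2) (hB w hw) (hmem b1 hb1 w hw h1) (hmem b2 hb2 w hw h2) ?_
    rw [div_mul_cancel₀ _ (h0 w hw)]
    exact hB c hc
  have t21 := htr b2 hb2 b1 hb1 (Ne.symm h12)
  obtain ⟨p1, q1, hp1, hq1, e1⟩ := comb t21 (hdep x hxB hx1 hx2 hx3)
  obtain ⟨p2, q2, hp2, hq2, e2⟩ := comb t21 (hdep y hyB hy1 hy2 hy3)
  obtain ⟨p3, q3, hp3, hq3, e3⟩ := comb t21 (hdep z hzB hz1 hz2 hz3)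
  have hdxyz : Dep x y z := by
    by_cases hdet : p1 * q2 - p2 * q1 = 0
    · -- `x` and `y` would be proportional
      exfalso
      apply htr x hxB y hyB hxy'
      have hy0 := h0 y hyB
      by_cases hq20 : q2 = 0
      · have hp20 : p2 ≠ 0 := by
          rintro rfl
          apply hy0
          rw [e2, hq20]; ring
        have hq10 : q1 = 0 := by
          rw [hq20] at hdet
          have : p2 * q1 = 0 := by linear_combination -hdet
          exact (mul_eq_zero.mp this).resolve_left hp20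
        have hb10 := h0 b1 hb1
        rw [e1, e2, hq10, hq20, zero_mul, add_zero, add_zero,
          mul_div_mul_right _ _ hb10, div_eq_mul_inv]
        exact hp1.mul hp2.inv
      · have : x / y = q1 / q2 := by
          rw [div_eq_div_iff hy0 hq20, e1, e2]
          linear_combination b1 * hdet
        rw [this, div_eq_mul_inv]
        exact hq1.mul hq2.inv
    · refine ⟨q2 * p3 - p2 * q3, p1 * q3 - q1 * p3, -(p1 * q2 - p2 * q1), ?_, ?_, ?_, ?_, ?_⟩
      · exact (hq2.mul hp3).sub (hp2.mul hq3)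
      · exact (hp1.mul hq3).sub (hq1.mul hp3)
      · exact ((hp1.mul hq2).sub (hp2.mul hq1)).neg
      · exact Or.inr (Or.inr (neg_ne_zero.mpr hdet))
      · rw [e1, e2, e3]
        ring
  exact two_aux (htr b1 hb1 b2 hb2 h12) (htr y hyB x hxB (Ne.symm hxy'))
    (htr z hzB x hxB (Ne.symm hxz')) (htr z hzB y hyB (Ne.symm hyz')) (h0 c hc) hdxyz
    (hmem b1 hb1 x hxB hx2) (hmem b2 hb2 x hxB hx3) (hmem b1 hb1 y hyB hy2) (hmem b2 hb2 y hyB hy3)
    (hmem b1 hb1 z hzB hz2) (hmem b2 hb2 z hzB hz3)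

/-- the two bounds in multiplicative form: `q` runs through representatives of the quotients -/
theorem sqrt_pow (n : ℕ) : (n : ℝ) ^ 2 + 2 * Real.sqrt (2 * n) * (n * (n - 1)) ≤
    4 * (n : ℝ) ^ (5 / 2 : ℝ) := by
  rcases Nat.eq_zero_or_pos n with rfl | hn
  · simp
  have hn1 : (1 : ℝ) ≤ n := by exact_mod_cast hn
  have hs : (n : ℝ) ^ (5 / 2 : ℝ) = (n : ℝ) ^ 2 * Real.sqrt n := by
    rw [Real.sqrt_eq_rpow, ← Real.rpow_natCast, ← Real.rpow_add (by linarith)]
    norm_num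
  rw [hs, Real.sqrt_mul (by norm_num)]
  have h1 : 1 ≤ Real.sqrt n := by rw [Real.one_le_sqrt]; exact hn1
  have h2 : Real.sqrt 2 ≤ 1.5 := by
    rw [Real.sqrt_le_left (by norm_num)]
    norm_num
  have h3 : 0 ≤ Real.sqrt 2 := Real.sqrt_nonneg _
  have h4 : (n : ℝ) * (n - 1) ≤ (n : ℝ) ^ 2 := by nlinarith
  have h5 : (n : ℝ) ^ 2 ≤ (n : ℝ) ^ 2 * Real.sqrt n := by
    have : 0 ≤ (n : ℝ) ^ 2 := by positivity
    nlinarith
  have h6 : 2 * (Real.sqrt 2 * Real.sqrt n) * (n * (n - 1)) ≤ 3 * ((n : ℝ) ^ 2 * Real.sqrt n) := by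
    have h7 : 2 * (Real.sqrt 2 * Real.sqrt n) ≤ 3 * Real.sqrt n := by nlinarith
    have h8 : 0 ≤ 3 * Real.sqrt n := by positivity
    calc 2 * (Real.sqrt 2 * Real.sqrt n) * (n * (n - 1)) ≤ 3 * Real.sqrt n * (n * (n - 1)) := by
          apply mul_le_mul_of_nonneg_right h7
          nlinarith
      _ ≤ 3 * Real.sqrt n * (n : ℝ) ^ 2 := mul_le_mul_of_nonneg_left h4 h8
      _ = 3 * ((n : ℝ) ^ 2 * Real.sqrt n) := by ring
  linarith

end Pool.Agent.U979.TW

namespace Pool.Agent.U979.TW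

open Pool.Agent.H301R2.SSE Finset
open scoped Pointwise

section fibers

variable {P D : Type*} [DecidableEq D]

theorem card_pairs (S : Finset P) (f : P → D) (T : Finset D) (hf : ∀ p ∈ S, f p ∈ T) :
    ((S ×ˢ S).filter (fun p => f p.1 = f p.2)).card =
      ∑ δ ∈ T, (S.filter (fun p => f p = δ)).card ^ 2 := by
  rw [Finset.card_eq_sum_card_fiberwise (f := fun p : P × P => f p.1) (t := T)]
  · apply Finset.sum_congr rfl
    intro δ _
    rw [sq, ← Finset.card_product]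
    congr 1
    ext p
    simp only [Finset.mem_filter, Finset.mem_product]
    constructor
    · rintro ⟨⟨⟨h1, h2⟩, h3⟩, h4⟩
      exact ⟨⟨h1, h4⟩, h2, by rw [← h3, h4]⟩
    · rintro ⟨⟨h1, h2⟩, h3, h4⟩
      exact ⟨⟨⟨h1, h3⟩, by rw [h2, h4]⟩, h2⟩
  · intro p hp
    rw [Finset.mem_coe, Finset.mem_filter, Finset.mem_product] at hp
    exact hf _ hp.1.1

theorem card_triples (S : Finset P) (f : P → D) (T : Finset D) (hf : ∀ p ∈ S, f p ∈ T) :
    ((S ×ˢ S ×ˢ S).filter (fun p => f p.1 = f p.2.1 ∧ f p.1 = f p.2.2)).card =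
      ∑ δ ∈ T, (S.filter (fun p => f p = δ)).card ^ 3 := by
  rw [Finset.card_eq_sum_card_fiberwise (f := fun p : P × P × P => f p.1) (t := T)]
  · apply Finset.sum_congr rfl
    intro δ _
    rw [show (S.filter (fun p => f p = δ)).card ^ 3 = (S.filter (fun p => f p = δ)).card *
      ((S.filter (fun p => f p = δ)).card * (S.filter (fun p => f p = δ)).card) by ring,
      ← Finset.card_product, ← Finset.card_product]
    congr 1
    ext p
    simp only [Finset.mem_filter, Finset.mem_product]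
    constructor
    · rintro ⟨⟨⟨h1, h2, h3⟩, h4, h5⟩, h6⟩
      exact ⟨⟨h1, h6⟩, ⟨h2, by rw [← h4, h6]⟩, h3, by rw [← h5, h6]⟩
    · rintro ⟨⟨h1, h2⟩, ⟨h3, h4⟩, h5, h6⟩
      exact ⟨⟨⟨h1, h3, h5⟩, by rw [h2, h4], by rw [h2, h6]⟩, h2⟩
  · intro p hp
    rw [Finset.mem_coe, Finset.mem_filter, Finset.mem_product] at hp
    exact hf _ hp.1.1

end fibers

open Classical in
/-- the pairs with a given quotient modulo the algebraic numbers -/
theorem fiber_eq (B : Finset ℂ) (h0 : ∀ s ∈ B, s ≠ 0)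
    (htr : ∀ s ∈ B, ∀ t ∈ B, s ≠ t → Transcendental ℚ (s / t)) (δ : ℂ ⧸ LQ) :
    ((B ×ˢ B).filter (fun p : ℂ × ℂ => io p.2 - io p.1 = δ)).card = sh (B.image io) δ := by
  have hinj : Set.InjOn io (B : Set ℂ) := by
    intro s hs t ht hst
    by_contra hne
    exact htr s hs t ht hne ((io_eq (h0 s hs) (h0 t ht)).mp hst)
  unfold sh
  apply Finset.card_bij (fun p _ => io p.1)
  · intro p hp
    rw [Finset.mem_filter, Finset.mem_product] at hp
    rw [Finset.mem_filter, ← hp.2, add_sub_cancel]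
    exact ⟨Finset.mem_image_of_mem io hp.1.1, Finset.mem_image_of_mem io hp.1.2⟩
  · intro p hp q hq hpq
    rw [Finset.mem_filter, Finset.mem_product] at hp hq
    have h1 : p.1 = q.1 := hinj (by exact_mod_cast hp.1.1) (by exact_mod_cast hq.1.1) hpq
    have h2 : io p.2 = io q.2 := by
      have h3 : io p.2 - io p.1 = io q.2 - io q.1 := by rw [hp.2, hq.2]
      rw [h1] at h3
      exact sub_left_inj.mp h3
    exact Prod.ext h1 (hinj (by exact_mod_cast hp.1.2) (by exact_mod_cast hq.1.2) h2)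
  · intro β hβ
    rw [Finset.mem_filter, Finset.mem_image, Finset.mem_image] at hβ
    obtain ⟨⟨a, ha, rfl⟩, b, hb, hbe⟩ := hβ
    refine ⟨(a, b), ?_, rfl⟩
    rw [Finset.mem_filter, Finset.mem_product]
    refine ⟨⟨ha, hb⟩, ?_⟩
    simp only
    rw [hbe]
    abel

open Classical in
theorem quads (B : Finset ℂ) (h0 : ∀ s ∈ B, s ≠ 0)
    (htr : ∀ s ∈ B, ∀ t ∈ B, s ≠ t → Transcendental ℚ (s / t)) (hB : ∀ b ∈ B, b ∈ Lt) :
    ((((B ×ˢ B) ×ˢ (B ×ˢ B)).filter (fun p => IsAlgebraic ℚ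
      ((p.1.2 * p.2.1) / (p.1.1 * p.2.2)))).card : ℝ) ≤ 4 * (B.card : ℝ) ^ (5 / 2 : ℝ) := by
  have hinj : Set.InjOn io (B : Set ℂ) := by
    intro s hs t ht hst
    by_contra hne
    exact htr s hs t ht hne ((io_eq (h0 s hs) (h0 t ht)).mp hst)
  have hcard : (B.image io).card = B.card := Finset.card_image_of_injOn hinj
  have h1 : (((B ×ˢ B) ×ˢ (B ×ˢ B)).filter (fun p => IsAlgebraic ℚ
      ((p.1.2 * p.2.1) / (p.1.1 * p.2.2)))) = ((B ×ˢ B) ×ˢ (B ×ˢ B)).filter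
      (fun p => (fun q : ℂ × ℂ => io q.2 - io q.1) p.1 =
        (fun q : ℂ × ℂ => io q.2 - io q.1) p.2) := by
    apply Finset.filter_congr
    intro p hp
    rw [Finset.mem_product, Finset.mem_product, Finset.mem_product] at hp
    have a1 := h0 _ hp.1.1
    have a2 := h0 _ hp.1.2
    have a3 := h0 _ hp.2.1
    have a4 := h0 _ hp.2.2
    rw [← io_eq (mul_ne_zero a2 a3) (mul_ne_zero a1 a4), io_mul a2 a3, io_mul a1 a4]
    simp only
    rw [sub_eq_sub_iff_add_eq_add, add_comm (io p.2.2)]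
  rw [h1, card_pairs (B ×ˢ B) (fun q : ℂ × ℂ => io q.2 - io q.1) (B.image io - B.image io) (by
    intro p hp
    rw [Finset.mem_product] at hp
    exact Finset.sub_mem_sub (Finset.mem_image_of_mem io hp.2) (Finset.mem_image_of_mem io hp.1))]
  have h2 := second (B.image io) (two_of B h0 htr hB)
  rw [hcard] at h2
  refine le_trans (le_trans (le_of_eq ?_) h2) (sqrt_pow B.card)
  push_cast
  apply Finset.sum_congr rfl
  intro δ _
  rw [fiber_eq B h0 htr δ]

open Classical in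
theorem sexts (B : Finset ℂ) (h0 : ∀ s ∈ B, s ≠ 0)
    (htr : ∀ s ∈ B, ∀ t ∈ B, s ≠ t → Transcendental ℚ (s / t)) (hB : ∀ b ∈ B, b ∈ Lt) :
    (((B ×ˢ B) ×ˢ (B ×ˢ B) ×ˢ (B ×ˢ B)).filter (fun p => IsAlgebraic ℚ
      ((p.1.2 * p.2.1.1) / (p.1.1 * p.2.1.2)) ∧ IsAlgebraic ℚ
      ((p.1.2 * p.2.2.1) / (p.1.1 * p.2.2.2)))).card ≤ 5 * B.card ^ 3 ∧
    B.card ^ 3 ≤ 5 * (B / B).card ^ 2 := by
  have hinj : Set.InjOn io (B : Set ℂ) := by
    intro s hs t ht hst
    by_contra hne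
    exact htr s hs t ht hne ((io_eq (h0 s hs) (h0 t ht)).mp hst)
  have hcard : (B.image io).card = B.card := Finset.card_image_of_injOn hinj
  have h2 := third (B.image io) (two_of B h0 htr hB)
  rw [hcard] at h2
  constructor
  · have h1 : (((B ×ˢ B) ×ˢ (B ×ˢ B) ×ˢ (B ×ˢ B)).filter (fun p => IsAlgebraic ℚ
      ((p.1.2 * p.2.1.1) / (p.1.1 * p.2.1.2)) ∧ IsAlgebraic ℚ
      ((p.1.2 * p.2.2.1) / (p.1.1 * p.2.2.2)))) = ((B ×ˢ B) ×ˢ (B ×ˢ B) ×ˢ (B ×ˢ B)).filter
      (fun p => (fun q : ℂ × ℂ => io q.2 - io q.1) p.1 =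
        (fun q : ℂ × ℂ => io q.2 - io q.1) p.2.1 ∧ (fun q : ℂ × ℂ => io q.2 - io q.1) p.1 =
        (fun q : ℂ × ℂ => io q.2 - io q.1) p.2.2) := by
      apply Finset.filter_congr
      intro p hp
      rw [Finset.mem_product, Finset.mem_product, Finset.mem_product, Finset.mem_product,
        Finset.mem_product] at hp
      have a1 := h0 _ hp.1.1
      have a2 := h0 _ hp.1.2
      have a3 := h0 _ hp.2.1.1
      have a4 := h0 _ hp.2.1.2
      have a5 := h0 _ hp.2.2.1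
      have a6 := h0 _ hp.2.2.2
      rw [← io_eq (mul_ne_zero a2 a3) (mul_ne_zero a1 a4), io_mul a2 a3, io_mul a1 a4,
        ← io_eq (mul_ne_zero a2 a5) (mul_ne_zero a1 a6), io_mul a2 a5, io_mul a1 a6]
      simp only
      rw [sub_eq_sub_iff_add_eq_add, add_comm (io p.2.1.2), sub_eq_sub_iff_add_eq_add,
        add_comm (io p.2.2.2)]
    rw [h1, card_triples (B ×ˢ B) (fun q : ℂ × ℂ => io q.2 - io q.1) (B.image io - B.image io) (by
      intro p hp
      rw [Finset.mem_product] at hp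
      exact Finset.sub_mem_sub (Finset.mem_image_of_mem io hp.2)
        (Finset.mem_image_of_mem io hp.1))]
    refine le_trans (le_of_eq ?_) h2
    apply Finset.sum_congr rfl
    intro δ _
    rw [fiber_eq B h0 htr δ]
  · -- power mean
    rcases B.eq_empty_or_nonempty with rfl | hne
    · simp
    set D := B.image io - B.image io with hD
    have hDle : D.card ≤ (B / B).card := card_diff_le B h0
    have hDpos : 0 < D.card := by
      rw [Finset.card_pos, hD]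
      exact (hne.image io).sub (hne.image io)
    have h4 := sum_sh (B.image io)
    rw [hcard] at h4
    have h5 : ((∑ δ ∈ D, (sh (B.image io) δ : ℝ)) ^ (2 + 1)) / (D.card : ℝ) ^ 2 ≤
        ∑ δ ∈ D, (sh (B.image io) δ : ℝ) ^ (2 + 1) :=
      pow_sum_div_card_le_sum_pow (fun δ _ => Nat.cast_nonneg _) 2
    have h6 : (∑ δ ∈ D, (sh (B.image io) δ : ℝ)) = (B.card : ℝ) ^ 2 := by exact_mod_cast h4
    have h7 : (∑ δ ∈ D, (sh (B.image io) δ : ℝ) ^ (2 + 1)) ≤ 5 * (B.card : ℝ) ^ 3 := by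
      exact_mod_cast h2
    rw [h6] at h5
    have h8 := h5.trans h7
    have hDpos' : (0 : ℝ) < (D.card : ℝ) ^ 2 := by positivity
    rw [div_le_iff₀ hDpos'] at h8
    have hn : (0 : ℝ) < (B.card : ℝ) ^ 3 := by
      have := Finset.card_pos.mpr hne
      positivity
    have h9 : (B.card : ℝ) ^ 3 ≤ 5 * (D.card : ℝ) ^ 2 := by
      have h10 : (B.card : ℝ) ^ 3 * (B.card : ℝ) ^ 3 ≤ (B.card : ℝ) ^ 3 * (5 * (D.card : ℝ) ^ 2) := by
        calc (B.card : ℝ) ^ 3 * (B.card : ℝ) ^ 3 = ((B.card : ℝ) ^ 2) ^ (2 + 1) := by ring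
          _ ≤ 5 * (B.card : ℝ) ^ 3 * (D.card : ℝ) ^ 2 := h8
          _ = _ := by ring
      exact le_of_mul_le_mul_left h10 hn
    have h10 : B.card ^ 3 ≤ 5 * D.card ^ 2 := by exact_mod_cast h9
    exact h10.trans (Nat.mul_le_mul_left _ (Nat.pow_le_pow_left hDle 2))

open Classical in
theorem products (B : Finset ℂ) (h0 : ∀ s ∈ B, s ≠ 0)
    (htr : ∀ s ∈ B, ∀ t ∈ B, s ≠ t → Transcendental ℚ (s / t)) (hB : ∀ b ∈ B, b ∈ Lt) :
    (B.card : ℝ) ^ (3 / 2 : ℝ) ≤ 4 * ((B * B).card : ℝ) := by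
  rcases B.eq_empty_or_nonempty with rfl | hne
  · rw [Finset.card_empty, Nat.cast_zero, Real.zero_rpow (by norm_num)]
    positivity
  have hn : 0 < B.card := Finset.card_pos.mpr hne
  have hn' : (0 : ℝ) < B.card := by exact_mod_cast hn
  have h1 := Finset.le_card_mul_mul_mulEnergy B B
  have h2 : Finset.mulEnergy B B ≤ (((B ×ˢ B) ×ˢ (B ×ˢ B)).filter (fun p => IsAlgebraic ℚ
      ((p.1.2 * p.2.1) / (p.1.1 * p.2.2)))).card := by
    unfold Finset.mulEnergy
    apply Finset.card_le_card_of_injOn (fun p => ((p.1.2, p.1.1), (p.2.1, p.2.2)))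
    · intro p hp
      rw [Finset.mem_coe, Finset.mem_filter, Finset.mem_product, Finset.mem_product,
        Finset.mem_product] at hp
      rw [Finset.mem_coe, Finset.mem_filter, Finset.mem_product, Finset.mem_product,
        Finset.mem_product]
      obtain ⟨⟨⟨a1, a2⟩, a3, a4⟩, h⟩ := hp
      refine ⟨⟨⟨a2, a1⟩, a3, a4⟩, ?_⟩
      simp only
      rw [h, div_self (mul_ne_zero (h0 _ a2) (h0 _ a4))]
      exact isAlgebraic_one
    · intro p _ q _ h
      have h3 := Prod.mk.inj h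
      have h4 := Prod.mk.inj h3.1
      exact Prod.ext (Prod.ext h4.2 h4.1) h3.2
  have h3 := quads B h0 htr hB
  have h4 : ((B.card : ℝ) ^ 2 * (B.card : ℝ) ^ 2) ≤
      ((B * B).card : ℝ) * (4 * (B.card : ℝ) ^ (5 / 2 : ℝ)) := by
    have h5 : ((B.card ^ 2 * B.card ^ 2 : ℕ) : ℝ) ≤ (((B * B).card * Finset.mulEnergy B B : ℕ) : ℝ) := by
      exact_mod_cast h1
    push_cast at h5
    refine h5.trans ?_
    apply mul_le_mul_of_nonneg_left _ (Nat.cast_nonneg _)
    exact le_trans (by exact_mod_cast h2) h3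
  have h6 : (B.card : ℝ) ^ 2 * (B.card : ℝ) ^ 2 =
      (B.card : ℝ) ^ (3 / 2 : ℝ) * (B.card : ℝ) ^ (5 / 2 : ℝ) := by
    rw [← Real.rpow_natCast, ← Real.rpow_add hn', ← Real.rpow_add hn']
    norm_num
  rw [h6] at h4
  have h7 : 0 < (B.card : ℝ) ^ (5 / 2 : ℝ) := Real.rpow_pos_of_pos hn' _
  have h8 : (B.card : ℝ) ^ (3 / 2 : ℝ) * (B.card : ℝ) ^ (5 / 2 : ℝ) ≤
      (4 * ((B * B).card : ℝ)) * (B.card : ℝ) ^ (5 / 2 : ℝ) := by linarith
  exact le_of_mul_le_mul_right h8 h7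

end Pool.Agent.U979.TW
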