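import Pool.Agent.U979.TW.Tow

/-!
# Towers of height three: counting exceptions
-/

set_option autoImplicit false

namespace Pool.Agent.U979.TW

open Pool.Agent.H301R2.SSE Finset
open scoped Pointwise

theorem le_sqrt_of {e M : ℕ} (h : e * (e - 1) ≤ M) : (e : ℝ) ≤ 1 + Real.sqrt M := by
  rcases Nat.eq_zero_or_pos e with rfl | he
  · have := Real.sqrt_nonneg (M : ℝ)
    push_cast
    linarith
  · have h1 : ((e : ℝ) - 1) ^ 2 ≤ M := by
      have h2 : ((e * (e - 1) : ℕ) : ℝ) ≤ M := by exact_mod_cast h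
      push_cast [Nat.cast_sub he] at h2
      have h3 : (1 : ℝ) ≤ e := by exact_mod_cast he
      nlinarith
    have h2 := Real.le_sqrt_of_sq_le h1
    linarith

theorem real_eq {m s : ℕ} (b : Fin m → ℝ) (hb : ∀ i, 0 < b i)
    (c : Fin s → ℝ) (k : Fin m × Fin s → ℤ) :
    ∏ i, b i ^ (∑ j, (k (i, j) : ℝ) * c j) = ∏ p : Fin m × Fin s, (b p.1 ^ c p.2) ^ k p := by
  rw [Fintype.prod_prod_type]
  apply Finset.prod_congr rfl
  intro i _
  rw [Real.rpow_sum_of_pos (hb i)]
  apply Finset.prod_congr rfl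
  intro j _
  rw [mul_comm, Real.rpow_mul (hb i).le, Real.rpow_intCast]

/-- the complex number `log a * ∏ b_i ^ {∑ k_ij c_j}` as a product of powers -/
theorem tower_eq {m s : ℕ} (a : ℝ) (ha : 0 < a) (b : Fin m → ℝ) (hb : ∀ i, 0 < b i)
    (c : Fin s → ℝ) (k : Fin m × Fin s → ℤ) :
    ((Real.log (a ^ (∏ i, b i ^ (∑ j, (k (i, j) : ℝ) * c j))) : ℝ) : ℂ) =
      ((Real.log a : ℝ) : ℂ) * ∏ p : Fin m × Fin s, (((b p.1 ^ c p.2 : ℝ) : ℂ)) ^ k p := by
  rw [Real.log_rpow ha, mul_comm, real_eq b hb c k]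
  rw [Complex.ofReal_mul, Complex.ofReal_prod]
  congr 1
  apply Finset.prod_congr rfl
  intro p _
  rw [Complex.ofReal_zpow]

theorem log_ne {a : ℝ} (ha : 0 < a) (ha1 : a ≠ 1) : ((Real.log a : ℝ) : ℂ) ≠ 0 := by
  rw [Complex.ofReal_ne_zero]
  exact Real.log_ne_zero_of_pos_of_ne_one ha ha1

theorem ofReal_alg {x : ℝ} (h : IsAlgebraic ℚ (x : ℂ)) : IsAlgebraic ℚ x :=
  (isAlgebraic_algebraMap_iff (algebraMap ℝ ℂ).injective).mp h

open Classical in
/-- **Towers `a ^ (∏ b_i ^ (∑ k_ij c_j))`.** -/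
theorem towers {m s : ℕ} (a : ℝ) (ha : 0 < a) (ha1 : a ≠ 1) (b : Fin m → ℝ) (hb : ∀ i, 0 < b i)
    (hba : ∀ i, IsAlgebraic ℚ (b i)) (hbi : ∀ n : Fin m → ℤ, ∏ i, b i ^ n i = 1 → ∀ i, n i = 0)
    (c : Fin s → ℝ) (hc : ∀ j, IsAlgebraic ℚ (c j))
    (hci : ∀ (q : ℚ) (p : Fin s → ℚ), ∑ j, (p j : ℝ) * c j = q → ∀ j, p j = 0)
    (X : Finset (Fin m × Fin s → ℤ)) :
    (X.filter (fun k => ((Real.log (a ^ (∏ i, b i ^ (∑ j, (k (i, j) : ℝ) * c j))) : ℝ) : ℂ) ∈
      Lt)).card * ((X.filter (fun k =>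
        ((Real.log (a ^ (∏ i, b i ^ (∑ j, (k (i, j) : ℝ) * c j))) : ℝ) : ℂ) ∈ Lt)).card - 1) ≤
      (m * s + 1) * ((X - X).card - 1) := by
  have h1 := group_bound (fun p : Fin m × Fin s => (((b p.1 ^ c p.2 : ℝ) : ℂ))) (by
    intro k hk halg
    apply hk
    have h2 : IsAlgebraic ℚ (((∏ p : Fin m × Fin s, (b p.1 ^ c p.2) ^ k p : ℝ)) : ℂ) := by
      rw [Complex.ofReal_prod]
      simpa [Complex.ofReal_zpow] using halg
    have h3 := ofReal_alg h2
    rw [← real_eq b hb c k] at h3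
    have h4 := baker_mat b hb hba hbi c hc hci (fun i j => k (i, j)) h3
    funext p
    exact h4 p.1 p.2) ((Real.log a : ℝ) : ℂ) (log_ne ha ha1) X
  rw [Fintype.card_prod, Fintype.card_fin, Fintype.card_fin] at h1
  simp only [tower_eq a ha b hb c]
  exact h1

theorem box_diff {ι : Type*} [Fintype ι] [DecidableEq ι] (K : ℕ) :
    ((Fintype.piFinset (fun _ : ι => Finset.Ico (0 : ℤ) K)) -
      (Fintype.piFinset (fun _ : ι => Finset.Ico (0 : ℤ) K))).card ≤ (2 * K) ^ Fintype.card ι := by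
  classical
  have h1 : (Fintype.piFinset (fun _ : ι => Finset.Ico (0 : ℤ) K)) -
      (Fintype.piFinset (fun _ : ι => Finset.Ico (0 : ℤ) K)) ⊆
      Fintype.piFinset (fun _ : ι => Finset.Ico (-(K : ℤ)) K) := by
    intro x hx
    rw [Finset.mem_sub] at hx
    obtain ⟨y, hy, z, hz, rfl⟩ := hx
    rw [Fintype.mem_piFinset] at hy hz ⊢
    intro i
    have h2 := hy i
    have h3 := hz i
    rw [Finset.mem_Ico] at h2 h3 ⊢
    rw [Pi.sub_apply]
    constructor <;> omega
  refine (Finset.card_le_card h1).trans ?_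
  rw [Fintype.card_piFinset, Finset.prod_const, Int.card_Ico, Finset.card_univ]
  apply le_of_eq
  congr 1
  omega

theorem gs {x c : ℝ} (hx : 0 < x) (hx1 : x ≠ 1) (hxa : IsAlgebraic ℚ x) (hc : IsAlgebraic ℚ c)
    (hci : Irrational c) : Transcendental ℚ (x ^ c) := by
  intro h
  have h1 := baker_mat (m := 1) (s := 1) (fun _ => x) (fun _ => hx) (fun _ => hxa) (by
    intro n hn i
    rw [Fin.prod_univ_one] at hn
    by_contra hne
    have h2 : i = 0 := Subsingleton.elim _ _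
    rw [h2] at hne
    rcases zpow_eq_one_iff_of_ne_zero₀ hne |>.mp hn with h3 | h3
    · exact hx1 h3
    · rw [h3.1] at hx
      linarith) (fun _ => c) (fun _ => hc) (by
    intro q p hp j
    rw [Fin.sum_univ_one] at hp
    have h2 : j = 0 := Subsingleton.elim _ _
    rw [h2]
    by_contra hne
    apply hci
    refine ⟨q / p 0, ?_⟩
    have h3 : (p 0 : ℝ) ≠ 0 := by exact_mod_cast hne
    push_cast
    rw [div_eq_iff h3]
    linarith) (fun _ _ => 1) (by
    rw [Fin.prod_univ_one, Fin.sum_univ_one]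
    simpa using h)
  have := h1 0 0
  omega

open Classical in
/-- **Divisors.** -/
theorem divs (a c : ℝ) (ha : 0 < a) (ha1 : a ≠ 1) (hc : IsAlgebraic ℚ c) (hci : Irrational c)
    (N : ℕ) (hN : 0 < N) :
    (N.divisors.filter (fun d : ℕ => ((Real.log (a ^ ((d : ℝ) ^ c)) : ℝ) : ℂ) ∈ Lt)).card *
      ((N.divisors.filter (fun d : ℕ => ((Real.log (a ^ ((d : ℝ) ^ c)) : ℝ) : ℂ) ∈ Lt)).card - 1) ≤
      (N.primeFactors.card + 1) * ((N ^ 2).divisors.card - 1) := by
  set v : ℂ := ((Real.log a : ℝ) : ℂ) with hv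
  have hv0 : v ≠ 0 := log_ne ha ha1
  set f : ℕ → ℂ := fun d => v * (((d : ℝ) ^ c : ℝ) : ℂ) with hf
  have hfe : ∀ d : ℕ, ((Real.log (a ^ ((d : ℝ) ^ c)) : ℝ) : ℂ) = f d := by
    intro d
    rw [Real.log_rpow ha, mul_comm, Complex.ofReal_mul]
  simp only [hfe]
  have hpos : ∀ d ∈ N.divisors, (0 : ℝ) < d := by
    intro d hd
    exact_mod_cast Nat.pos_of_mem_divisors hd
  have hdc : ∀ d ∈ N.divisors, (((d : ℝ) ^ c : ℝ) : ℂ) ≠ 0 := by
    intro d hd
    rw [Complex.ofReal_ne_zero]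
    exact (Real.rpow_pos_of_pos (hpos d hd) c).ne'
  have hquot : ∀ d ∈ N.divisors, ∀ d' ∈ N.divisors, f d / f d' =
      ((((d : ℝ) / d') ^ c : ℝ) : ℂ) := by
    intro d hd d' hd'
    rw [hf]
    simp only
    rw [mul_div_mul_left _ _ hv0, Real.div_rpow (hpos d hd).le (hpos d' hd').le,
      Complex.ofReal_div]
  set A := N.divisors.image f with hA
  have h0 : ∀ s ∈ A, s ≠ 0 := by
    intro s hs
    rw [hA, Finset.mem_image] at hs
    obtain ⟨d, hd, rfl⟩ := hs
    exact mul_ne_zero hv0 (hdc d hd)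
  have htr' : ∀ d ∈ N.divisors, ∀ d' ∈ N.divisors, d ≠ d' → Transcendental ℚ (f d / f d') := by
    intro d hd d' hd' hne halg
    rw [hquot d hd d' hd'] at halg
    refine gs (div_pos (hpos d hd) (hpos d' hd')) ?_ ?_ hc hci (ofReal_alg halg)
    · intro h
      rw [div_eq_one_iff_eq (hpos d' hd').ne'] at h
      exact hne (by exact_mod_cast h)
    · rw [div_eq_mul_inv]
      exact (isAlgebraic_natCast d).mul (isAlgebraic_natCast d').inv
  have htr : ∀ s ∈ A, ∀ u ∈ A, s ≠ u → Transcendental ℚ (s / u) := by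
    intro s hs u hu hsu
    rw [hA, Finset.mem_image] at hs hu
    obtain ⟨d, hd, rfl⟩ := hs
    obtain ⟨d', hd', rfl⟩ := hu
    exact htr' d hd d' hd' (fun h => hsu (by rw [h]))
  have hinj : Set.InjOn f (N.divisors : Set ℕ) := by
    intro d hd d' hd' h
    by_contra hne
    apply htr' d hd d' hd' hne
    rw [h, div_self (mul_ne_zero hv0 (hdc d' hd'))]
    exact isAlgebraic_one
  have h1 := rank_bound A h0 htr
  -- the rank
  have h2 : rk A ≤ N.primeFactors.card := by
    have h3 := rk_le (ι := N.primeFactors) (fun p => ((((p : ℕ) : ℝ) ^ c : ℝ) : ℂ)) (by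
      intro p
      rw [Complex.ofReal_ne_zero]
      have : 0 < (p : ℕ) := Nat.pos_of_mem_primeFactors p.2
      exact (Real.rpow_pos_of_pos (by exact_mod_cast this) c).ne') v hv0 A (by
      intro s hs
      rw [hA, Finset.mem_image] at hs
      obtain ⟨d, hd, rfl⟩ := hs
      refine ⟨fun p => (d.factorization p : ℤ), ?_⟩
      rw [hf]
      simp only
      congr 1
      have hd0 : d ≠ 0 := (Nat.pos_of_mem_divisors hd).ne'
      have h4 : (d : ℝ) = ∏ p ∈ N.primeFactors, ((p : ℕ) : ℝ) ^ (d.factorization p) := by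
        have h5 := Nat.prod_factorization_pow_eq_self hd0
        rw [Finsupp.prod_of_support_subset d.factorization (s := N.primeFactors) (by
          rw [Nat.support_factorization]
          exact Nat.primeFactors_mono (Nat.dvd_of_mem_divisors hd) hN.ne') _ (by simp)] at h5
        exact_mod_cast h5.symm
      have h6 : (d : ℝ) ^ c = ∏ p ∈ N.primeFactors, (((p : ℕ) : ℝ) ^ c) ^ (d.factorization p) := by
        rw [h4, ← Real.finset_prod_rpow _ _ (fun p _ => by positivity)]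
        apply Finset.prod_congr rfl
        intro p _
        rw [← Real.rpow_natCast, ← Real.rpow_natCast, ← Real.rpow_mul (by positivity),
          ← Real.rpow_mul (by positivity), mul_comm]
      rw [h6, ← Finset.prod_coe_sort, Complex.ofReal_prod]
      apply Finset.prod_congr rfl
      intro p _
      rw [Complex.ofReal_pow, zpow_natCast])
    rwa [Fintype.card_coe] at h3
  -- the quotients
  have h3 : (A.image io - A.image io).card ≤ ((N ^ 2).divisors).card := by
    refine (card_diff_le A h0).trans ?_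
    have h4 : A / A ⊆ (N ^ 2).divisors.image (fun n : ℕ => ((((n : ℝ) / N) ^ c : ℝ) : ℂ)) := by
      intro x hx
      rw [Finset.mem_div] at hx
      obtain ⟨s, hs, u, hu, rfl⟩ := hx
      rw [hA, Finset.mem_image] at hs hu
      obtain ⟨d, hd, rfl⟩ := hs
      obtain ⟨d', hd', rfl⟩ := hu
      rw [Finset.mem_image]
      refine ⟨d * (N / d'), ?_, ?_⟩
      · rw [Nat.mem_divisors, sq]
        exact ⟨Nat.mul_dvd_mul (Nat.dvd_of_mem_divisors hd)
          (Nat.div_dvd_of_dvd (Nat.dvd_of_mem_divisors hd')), by positivity⟩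
      · rw [hquot d hd d' hd']
        congr 2
        have hN' : (N : ℝ) ≠ 0 := by exact_mod_cast hN.ne'
        have hd'0 := (hpos d' hd').ne'
        rw [Nat.cast_mul, Nat.cast_div (Nat.dvd_of_mem_divisors hd') hd'0]
        field_simp
    exact (Finset.card_le_card h4).trans Finset.card_image_le
  have h4 : (A.filter (· ∈ Lt)).card = (N.divisors.filter (fun d => f d ∈ Lt)).card := by
    rw [hA, Finset.filter_image, Finset.card_image_of_injOn]
    exact hinj.mono (by exact_mod_cast Finset.filter_subset _ _)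
  rw [h4] at h1
  refine h1.trans ?_
  gcongr

end Pool.Agent.U979.TW
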