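import Pool.Agent.U979.TW.Core

/-!
# Affine independence of the classes of logarithms
-/

set_option autoImplicit false

namespace Pool.Agent.U979.TW

open Pool.Agent.H301R2.SSE Finset

theorem io_mul {x y : ℂ} (hx : x ≠ 0) (hy : y ≠ 0) : io (x * y) = io x + io y := by
  unfold io
  rw [← map_add, ← sub_eq_zero, ← map_sub, Submodule.mkQ_apply, Submodule.Quotient.mk_eq_zero,
    mem_LQ, Complex.exp_sub, Complex.exp_add, Complex.exp_log hx, Complex.exp_log hy,
    Complex.exp_log (mul_ne_zero hx hy), div_self (mul_ne_zero hx hy)]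
  exact isAlgebraic_one

theorem io_eq_zero {x : ℂ} (hx : x ≠ 0) : io x = 0 ↔ IsAlgebraic ℚ x := by
  unfold io
  rw [Submodule.mkQ_apply, Submodule.Quotient.mk_eq_zero, mem_LQ, Complex.exp_log hx]

theorem io_inv {x : ℂ} (hx : x ≠ 0) : io x⁻¹ = -io x := by
  have h := io_mul hx (inv_ne_zero hx)
  rw [mul_inv_cancel₀ hx, (io_eq_zero one_ne_zero).mpr isAlgebraic_one] at h
  exact eq_neg_of_add_eq_zero_right h.symm

theorem io_div {x y : ℂ} (hx : x ≠ 0) (hy : y ≠ 0) : io (x / y) = io x - io y := by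
  rw [div_eq_mul_inv, io_mul hx (inv_ne_zero hy), io_inv hy, sub_eq_add_neg]

theorem io_eq {x y : ℂ} (hx : x ≠ 0) (hy : y ≠ 0) : io x = io y ↔ IsAlgebraic ℚ (x / y) := by
  rw [← io_eq_zero (div_ne_zero hx hy), io_div hx hy, sub_eq_zero]

theorem prod_zpow_sum {ι : Type*} {a : ℂ} (ha : a ≠ 0) (T : Finset ι) (n : ι → ℤ) :
    ∏ s ∈ T, a ^ (n s) = a ^ (∑ s ∈ T, n s) := by
  classical
  induction T using Finset.induction_on with
  | empty => simp
  | insert i T hi ih => rw [Finset.prod_insert hi, Finset.sum_insert hi, ih, zpow_add₀ ha]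

/-- `a, b, c` are linearly dependent over the algebraic numbers -/
def Dep (a b c : ℂ) : Prop := ∃ α β γ : ℂ, IsAlgebraic ℚ α ∧ IsAlgebraic ℚ β ∧ IsAlgebraic ℚ γ ∧
  (α ≠ 0 ∨ β ≠ 0 ∨ γ ≠ 0) ∧ α * a + β * b + γ * c = 0

theorem exists_int {ι : Type*} (T : Finset ι) (w : ι → ℚ) :
    ∃ (D : ℤ) (n : ι → ℤ), D ≠ 0 ∧ ∀ i ∈ T, (n i : ℚ) = D * w i := by
  classical
  obtain ⟨⟨b, hb⟩, hbT⟩ := IsLocalization.exist_integer_multiples_of_finset (nonZeroDivisors ℤ)
    (T.image w)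
  choose g hg using hbT
  refine ⟨b, fun i => if h : i ∈ T then g (w i) (Finset.mem_image_of_mem w h) else 0,
    nonZeroDivisors.ne_zero hb, ?_⟩
  intro i hi
  simp only [hi, dif_pos]
  have := hg (w i) (Finset.mem_image_of_mem w hi)
  rw [Algebra.smul_def] at this
  simpa using this

/-- Finitely many numbers with transcendental quotients in a two dimensional space are affinely
independent modulo the algebraic numbers. -/
theorem aff (S : Finset ℂ) (h0 : ∀ s ∈ S, s ≠ 0)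
    (htr : ∀ s ∈ S, ∀ t ∈ S, s ≠ t → Transcendental ℚ (s / t))
    (hdep : ∀ a ∈ S, ∀ b ∈ S, ∀ c ∈ S, Dep a b c) :
    AffineIndependent ℚ (fun s : S => io (s : ℂ)) := by
  classical
  by_cases hcard : S.card ≤ 1
  · have : Subsingleton S := by
      rw [← Finset.card_le_one_iff_subsingleton_coe]
      exact hcard
    exact affineIndependent_of_subsingleton ℚ _
  push Not at hcard
  obtain ⟨s0, hs0, s1, hs1, h01⟩ := Finset.one_lt_card.mp hcard
  have hτ : Transcendental ℚ (s1 / s0) := htr s1 hs1 s0 hs0 (Ne.symm h01)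
  set τ := s1 / s0 with hτdef
  have hs00 := h0 s0 hs0
  have hrep : ∀ s : S, ∃ α β : QB, (s : ℂ) = s0 * ((α : ℂ) + (β : ℂ) * τ) := by
    intro s
    obtain ⟨α, β, hα, hβ, h⟩ := comb hτ (hdep s0 hs0 s1 hs1 s s.2)
    refine ⟨⟨α, mem_QB.mpr hα⟩, ⟨β, mem_QB.mpr hβ⟩, ?_⟩
    rw [hτdef]
    simp only
    rw [h]
    field_simp
  choose α β hαβ using hrep
  have hne : ∀ s t : S, s ≠ t → α s * β t ≠ α t * β s := by
    intro s t hst h
    have hst' : (s : ℂ) ≠ t := fun h => hst (Subtype.ext h)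
    apply htr s s.2 t t.2 hst'
    have ht0 := h0 t t.2
    have hC : (α s : ℂ) * (β t : ℂ) = (α t : ℂ) * (β s : ℂ) := by exact_mod_cast h
    by_cases hβt : (β t : ℂ) = 0
    · have hαt : (α t : ℂ) ≠ 0 := by
        intro h1
        apply ht0
        rw [hαβ t, h1, hβt]
        ring
      have hβs : (β s : ℂ) = 0 := by
        rw [hβt, mul_zero] at hC
        rcases mul_eq_zero.mp hC.symm with h1 | h1
        · exact absurd h1 hαt
        · exact h1
      have : (s : ℂ) / t = (α s : ℂ) / (α t : ℂ) := by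
        rw [hαβ s, hαβ t, hβs, hβt, zero_mul, add_zero, add_zero, mul_div_mul_left _ _ hs00]
      rw [this, div_eq_mul_inv]
      exact (mem_QB.mp (α s).2).mul (mem_QB.mp (α t).2).inv
    · have : (s : ℂ) / t = (β s : ℂ) / (β t : ℂ) := by
        rw [div_eq_div_iff ht0 hβt, hαβ s, hαβ t]
        linear_combination s0 * hC
      rw [this, div_eq_mul_inv]
      exact (mem_QB.mp (β s).2).mul (mem_QB.mp (β t).2).inv
  rw [affineIndependent_iff]
  intro T w hw0 hw
  obtain ⟨D, n, hD, hn⟩ := exists_int T w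
  have hD' : (D : ℚ) ≠ 0 := by exact_mod_cast hD
  have hn0 : ∑ s ∈ T, n s = 0 := by
    have : ((∑ s ∈ T, n s : ℤ) : ℚ) = 0 := by
      push_cast
      rw [Finset.sum_congr rfl hn, ← Finset.mul_sum, hw0, mul_zero]
    exact_mod_cast this
  have hsum : ∑ s ∈ T, (n s : ℚ) • io (s : ℂ) = 0 := by
    have : ∀ s ∈ T, (n s : ℚ) • io (s : ℂ) = (D : ℚ) • (w s • io (s : ℂ)) := by
      intro s hs
      rw [hn s hs, mul_smul]
    rw [Finset.sum_congr rfl this, ← Finset.smul_sum, hw, smul_zero]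
  have hprod : IsAlgebraic ℚ (∏ s ∈ T, (s : ℂ) ^ (n s)) := by
    have h1 : ∑ s ∈ T, (n s : ℚ) • Complex.log (s : ℂ) ∈ LQ := by
      rw [← Submodule.Quotient.mk_eq_zero, ← Submodule.mkQ_apply, map_sum]
      simp only [map_smul]
      exact hsum
    rw [mem_LQ, Complex.exp_sum] at h1
    have h2 : ∀ s ∈ T, Complex.exp ((n s : ℚ) • Complex.log (s : ℂ)) = (s : ℂ) ^ (n s) := by
      intro s _
      rw [Rat.smul_def, Rat.cast_intCast, Complex.exp_int_mul, Complex.exp_log (h0 s s.2)]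
    rwa [Finset.prod_congr rfl h2] at h1
  have hprod2 : ∏ s ∈ T, ((α s : ℂ) + (β s : ℂ) * τ) ^ (n s) = ∏ s ∈ T, (s : ℂ) ^ (n s) := by
    have h1 : ∀ s ∈ T, (s : ℂ) ^ (n s) = s0 ^ (n s) * ((α s : ℂ) + (β s : ℂ) * τ) ^ (n s) := by
      intro s _
      rw [← mul_zpow, ← hαβ s]
    rw [Finset.prod_congr rfl h1, Finset.prod_mul_distrib]
    have h2 : ∏ s ∈ T, s0 ^ (n s) = 1 := by
      rw [prod_zpow_sum hs00, hn0, zpow_zero]
    rw [h2, one_mul]
  have hfin := mul_indep T hτ α β (fun s _ t _ hst => hne s t hst) n hn0 _ hprod hprod2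
  intro s hs
  have h1 := hn s hs
  rw [hfin s hs, Int.cast_zero] at h1
  rcases mul_eq_zero.mp h1.symm with h2 | h2
  · exact absurd h2 hD'
  · exact h2

end Pool.Agent.U979.TW
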