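import Pool.Agent.H301R2.SSE.Forms

/-!
# Multiplicative independence inside two dimensional spaces, and the strong six exponentials theorem

If three complex numbers `y` and their multiples `ρ y` (`ρ` transcendental) are linear forms in `1`
and logarithms of algebraic numbers then they are linearly dependent over the algebraic numbers
(D. Roy).  Finitely many numbers with transcendental quotients in a two dimensional space over the
algebraic numbers are multiplicatively (affinely) independent modulo the algebraic numbers.
-/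

set_option autoImplicit false

namespace Pool.Agent.U979.TW

open Pool.Agent.H301R2.SSE Finset

theorem dep3 {ρ : ℂ} (hρ : Transcendental ℚ ρ) {y1 y2 y3 : ℂ} (h1 : y1 ∈ Lt) (h2 : y2 ∈ Lt)
    (h3 : y3 ∈ Lt) (k1 : ρ * y1 ∈ Lt) (k2 : ρ * y2 ∈ Lt) (k3 : ρ * y3 ∈ Lt) :
    ∃ a b c : ℂ, IsAlgebraic ℚ a ∧ IsAlgebraic ℚ b ∧ IsAlgebraic ℚ c ∧
      (a ≠ 0 ∨ b ≠ 0 ∨ c ≠ 0) ∧ a * y1 + b * y2 + c * y3 = 0 := by
  by_contra hcon
  push Not at hcon
  refine strong_six ![1, ρ] ![y1, y2, y3] ?_ ?_ ?_
  · intro a c ha hc hac
    simp only [Matrix.cons_val_zero, Matrix.cons_val_one] at hac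
    by_cases hc0 : c = 0
    · subst hc0
      exact ⟨by simpa using hac, rfl⟩
    · exfalso
      apply hρ
      have : ρ = -a / c := by
        field_simp
        linear_combination hac
      rw [this, div_eq_mul_inv]
      exact (ha.neg).mul hc.inv
  · intro c hc hsum
    rw [Fin.sum_univ_three] at hsum
    simp only [Matrix.cons_val_zero, Matrix.cons_val_one, Matrix.cons_val] at hsum
    by_contra hne
    apply hcon (c 0) (c 1) (c 2) (hc 0) (hc 1) (hc 2) ?_ hsum
    by_contra hall
    push Not at hall
    apply hne
    intro j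
    fin_cases j
    · exact hall.1
    · exact hall.2.1
    · exact hall.2.2
  · intro i j
    fin_cases i <;> fin_cases j
    · simpa using h1
    · simpa using h2
    · simpa using h3
    · simpa using k1
    · simpa using k2
    · simpa using k3

/-- a third element of a two dimensional space is a combination of the first two -/
theorem comb {y1 y2 y3 : ℂ} (h12 : Transcendental ℚ (y2 / y1))
    (hdep : ∃ a b c : ℂ, IsAlgebraic ℚ a ∧ IsAlgebraic ℚ b ∧ IsAlgebraic ℚ c ∧
      (a ≠ 0 ∨ b ≠ 0 ∨ c ≠ 0) ∧ a * y1 + b * y2 + c * y3 = 0) :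
    ∃ α β : ℂ, IsAlgebraic ℚ α ∧ IsAlgebraic ℚ β ∧ y3 = α * y1 + β * y2 := by
  obtain ⟨a, b, c, ha, hb, hc, hne, h⟩ := hdep
  have hy1 : y1 ≠ 0 := by
    rintro rfl
    rw [div_zero] at h12
    exact h12 isAlgebraic_zero
  by_cases hc0 : c = 0
  · exfalso
    subst hc0
    have h' : a * y1 + b * y2 = 0 := by linear_combination h
    by_cases hb0 : b = 0
    · subst hb0
      have : a = 0 := by
        rcases mul_eq_zero.mp (show a * y1 = 0 by linear_combination h') with h3 | h3
        · exact h3
        · exact absurd h3 hy1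
      rcases hne with h3 | h3 | h3
      · exact h3 this
      · exact h3 rfl
      · exact h3 rfl
    · apply h12
      have : y2 / y1 = -a / b := by
        field_simp
        linear_combination h'
      rw [this, div_eq_mul_inv]
      exact ha.neg.mul hb.inv
  · refine ⟨-a / c, -b / c, ?_, ?_, ?_⟩
    · rw [div_eq_mul_inv]; exact ha.neg.mul hc.inv
    · rw [div_eq_mul_inv]; exact hb.neg.mul hc.inv
    · field_simp
      linear_combination h

/-- **Unique factorisation.** Pairwise non proportional linear polynomials at a transcendental point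
are multiplicatively independent. -/
theorem mul_indep {ι : Type*} [DecidableEq ι] (S : Finset ι) {τ : ℂ} (hτ : Transcendental ℚ τ)
    (α β : ι → QB) (hne : ∀ s ∈ S, ∀ t ∈ S, s ≠ t → α s * β t ≠ α t * β s) (n : ι → ℤ)
    (hn : ∑ s ∈ S, n s = 0) (c : ℂ) (hc : IsAlgebraic ℚ c)
    (hprod : ∏ s ∈ S, ((α s : ℂ) + (β s : ℂ) * τ) ^ (n s) = c) : ∀ s ∈ S, n s = 0 := by
  classical
  by_cases hcard : S.card ≤ 1
  · intro s hs
    have : S = {s} := by
      apply Finset.eq_singleton_iff_unique_mem.mpr
      refine ⟨hs, fun t ht => ?_⟩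
      exact Finset.card_le_one.mp hcard t ht s hs
    rw [this, Finset.sum_singleton] at hn
    exact hn
  push Not at hcard
  have : Algebra.IsAlgebraic ℚ QB := algebraicClosure.isAlgebraic ℚ ℂ
  have hτ' : Transcendental QB τ := by
    intro h
    apply hτ
    exact h.restrictScalars ℚ
  -- all the factors are nonzero
  have hx : ∀ s ∈ S, ((α s : ℂ) + (β s : ℂ) * τ) ≠ 0 := by
    intro s hs h0
    obtain ⟨t, ht, hts⟩ : ∃ t ∈ S, t ≠ s := Finset.exists_mem_ne hcard s
    have h1 : Polynomial.aeval τ (Polynomial.C (α s) + Polynomial.C (β s) * Polynomial.X) = 0 := by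
      simp only [map_add, map_mul, Polynomial.aeval_C, Polynomial.aeval_X]
      exact h0
    have h2 := (transcendental_iff.mp hτ') _ h1
    have h3 : α s = 0 := by
      have := congrArg (fun p => Polynomial.coeff p 0) h2
      simpa using this
    have h4 : β s = 0 := by
      have := congrArg (fun p => Polynomial.coeff p 1) h2
      simpa using this
    exact hne s hs t ht (Ne.symm hts) (by rw [h3, h4]; ring)
  have hc0 : c ≠ 0 := by
    rw [← hprod]
    exact Finset.prod_ne_zero_iff.mpr (fun s hs => zpow_ne_zero _ (hx s hs))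
  set c' : QB := ⟨c, mem_QB.mpr hc⟩ with hc'
  -- polynomial identity
  set F : ι → Polynomial QB := fun s => Polynomial.C (α s) + Polynomial.C (β s) * Polynomial.X
    with hF
  set P : Polynomial QB := ∏ s ∈ S, F s ^ (n s).toNat with hP
  set Q : Polynomial QB := ∏ s ∈ S, F s ^ (-(n s)).toNat with hQ
  have hev : ∀ s, Polynomial.aeval τ (F s) = (α s : ℂ) + (β s : ℂ) * τ := by
    intro s
    simp only [hF, map_add, map_mul, Polynomial.aeval_C, Polynomial.aeval_X]
    rfl
  have hPQ : P = Polynomial.C c' * Q := by
    have h1 : Polynomial.aeval τ (P - Polynomial.C c' * Q) = 0 := by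
      rw [map_sub, map_mul, Polynomial.aeval_C, hP, hQ, map_prod, map_prod]
      simp only [map_pow, hev]
      have h2 : ∏ s ∈ S, ((α s : ℂ) + (β s : ℂ) * τ) ^ (n s).toNat =
          c * ∏ s ∈ S, ((α s : ℂ) + (β s : ℂ) * τ) ^ (-(n s)).toNat := by
        rw [← hprod, ← Finset.prod_mul_distrib]
        apply Finset.prod_congr rfl
        intro s hs
        rw [← zpow_natCast, ← zpow_natCast, ← zpow_add₀ (hx s hs)]
        congr 1
        have := Int.toNat_sub_toNat_neg (n s)
        omega
      rw [h2]
      exact sub_self _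
    have := (transcendental_iff.mp hτ') _ h1
    exact sub_eq_zero.mp this
  -- evaluation at the zero of a factor
  have key : ∀ s ∈ S, β s ≠ 0 → n s = 0 := by
    intro s hs hβ
    by_contra hns
    set x : QB := -α s / β s with hx'
    have hFs : Polynomial.eval x (F s) = 0 := by
      simp only [hF, Polynomial.eval_add, Polynomial.eval_mul, Polynomial.eval_C, Polynomial.eval_X]
      rw [hx']
      field_simp
      ring
    have hFt : ∀ t ∈ S, t ≠ s → Polynomial.eval x (F t) ≠ 0 := by
      intro t ht hts h0
      simp only [hF, Polynomial.eval_add, Polynomial.eval_mul, Polynomial.eval_C,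
        Polynomial.eval_X] at h0
      rw [hx'] at h0
      field_simp at h0
      exact hne t ht s hs hts (by linear_combination h0)
    have hee := congrArg (Polynomial.eval x) hPQ
    rw [hP, hQ, Polynomial.eval_mul, Polynomial.eval_C, Polynomial.eval_prod,
      Polynomial.eval_prod] at hee
    simp only [Polynomial.eval_pow] at hee
    have hc'0 : c' ≠ 0 := by
      intro h
      apply hc0
      have := congrArg (fun z : QB => (z : ℂ)) h
      simpa [hc'] using this
    rcases lt_or_gt_of_ne hns with hneg | hpos
    · -- `n s < 0`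
      have h1 : ∏ t ∈ S, Polynomial.eval x (F t) ^ (-(n t)).toNat = 0 := by
        apply Finset.prod_eq_zero hs
        rw [hFs]
        apply zero_pow
        omega
      have h2 : ∏ t ∈ S, Polynomial.eval x (F t) ^ (n t).toNat ≠ 0 := by
        apply Finset.prod_ne_zero_iff.mpr
        intro t ht
        by_cases hts : t = s
        · subst hts
          have : (n t).toNat = 0 := by omega
          rw [this, pow_zero]
          exact one_ne_zero
        · exact pow_ne_zero _ (hFt t ht hts)
      apply h2
      rw [hee, h1, mul_zero]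
    · have h1 : ∏ t ∈ S, Polynomial.eval x (F t) ^ (n t).toNat = 0 := by
        apply Finset.prod_eq_zero hs
        rw [hFs]
        apply zero_pow
        omega
      have h2 : ∏ t ∈ S, Polynomial.eval x (F t) ^ (-(n t)).toNat ≠ 0 := by
        apply Finset.prod_ne_zero_iff.mpr
        intro t ht
        by_cases hts : t = s
        · subst hts
          have : (-(n t)).toNat = 0 := by omega
          rw [this, pow_zero]
          exact one_ne_zero
        · exact pow_ne_zero _ (hFt t ht hts)
      rw [h1] at hee
      exact (mul_ne_zero hc'0 h2) hee.symm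
  intro s hs
  by_cases hβ : β s = 0
  · -- the only possible element with `β s = 0`
    have h1 : ∑ t ∈ S, n t = n s := by
      rw [← Finset.add_sum_erase S n hs]
      have : ∑ t ∈ S.erase s, n t = 0 := by
        apply Finset.sum_eq_zero
        intro t ht
        rw [Finset.mem_erase] at ht
        apply key t ht.2
        intro hβt
        exact hne t ht.2 s hs ht.1 (by rw [hβ, hβt]; ring)
      rw [this, add_zero]
    rw [← h1, hn]
  · exact key s hs hβ

theorem alg_zpow {x : ℂ} (hx : IsAlgebraic ℚ x) (n : ℤ) : IsAlgebraic ℚ (x ^ n) := by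
  rcases Int.eq_nat_or_neg n with ⟨m, rfl | rfl⟩
  · rw [zpow_natCast]; exact hx.pow m
  · rw [zpow_neg, zpow_natCast]; exact (hx.pow m).inv

/-- the space of the logarithms of algebraic numbers -/
noncomputable def LQ : Submodule ℚ ℂ where
  carrier := {z | IsAlgebraic ℚ (Complex.exp z)}
  zero_mem' := by
    change IsAlgebraic ℚ (Complex.exp 0)
    rw [Complex.exp_zero]
    exact isAlgebraic_one
  add_mem' := by
    intro a b ha hb
    change IsAlgebraic ℚ (Complex.exp (a + b))
    rw [Complex.exp_add]
    exact IsAlgebraic.mul ha hb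
  smul_mem' := by
    intro q z hz
    change IsAlgebraic ℚ (Complex.exp (q • z))
    apply IsAlgebraic.of_pow q.den_pos
    rw [← Complex.exp_nat_mul]
    have h1 : ((q.den : ℕ) : ℂ) * (q • z) = (q.num : ℂ) * z := by
      rw [Rat.smul_def, ← mul_assoc]
      congr 1
      have := Rat.den_mul_eq_num q
      exact_mod_cast this
    rw [h1, Complex.exp_int_mul]
    exact alg_zpow hz _

theorem mem_LQ {z : ℂ} : z ∈ LQ ↔ IsAlgebraic ℚ (Complex.exp z) := Iff.rfl

/-- the class of the logarithm, i.e. the class of `x` modulo the algebraic numbers -/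
noncomputable def io (x : ℂ) : ℂ ⧸ LQ := LQ.mkQ (Complex.log x)

end Pool.Agent.U979.TW
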