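import Pool.Agent.U979.TW.Aff
import Pool.Agent.N428.Ram.Freiman

/-!
# Linear forms in logarithms in sets with multiplicative structure
-/

set_option autoImplicit false

namespace Pool.Agent.U979.TW

open Pool.Agent.H301R2.SSE Finset
open scoped Pointwise

/-- Counting pairs by their difference. -/
theorem count {V : Type*} [AddCommGroup V] [DecidableEq V] (A B : Finset V) (hBA : B ⊆ A) (m : ℕ)
    (h : ∀ δ : V, δ ≠ 0 → (B.filter (fun b => b + δ ∈ B)).card ≤ m) :
    B.card * (B.card - 1) ≤ m * ((A - A).card - 1) := by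
  have h1 : B.offDiag.card = B.card * (B.card - 1) := by
    rw [Finset.offDiag_card, Nat.mul_sub_one]
  rw [← h1]
  rcases B.eq_empty_or_nonempty with rfl | ⟨b0, hb0⟩
  · simp
  have h0mem : (0 : V) ∈ A - A := by
    rw [← sub_self b0]
    exact Finset.sub_mem_sub (hBA hb0) (hBA hb0)
  rw [← Finset.card_erase_of_mem h0mem]
  apply Finset.card_le_mul_card_image_of_maps_to (f := fun p : V × V => p.2 - p.1)
  · intro p hp
    rw [Finset.mem_offDiag] at hp
    rw [Finset.mem_erase]
    exact ⟨sub_ne_zero.mpr (Ne.symm hp.2.2), Finset.sub_mem_sub (hBA hp.2.1) (hBA hp.1)⟩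
  · intro δ hδ
    rw [Finset.mem_erase] at hδ
    refine le_trans ?_ (h δ hδ.1)
    apply Finset.card_le_card_of_injOn (fun p => p.1)
    · intro p hp
      rw [Finset.mem_coe, Finset.mem_filter, Finset.mem_offDiag] at hp
      rw [Finset.mem_coe, Finset.mem_filter]
      refine ⟨hp.1.1, ?_⟩
      rw [← hp.2, add_sub_cancel]
      exact hp.1.2.1
    · intro p hp q hq hpq
      rw [Finset.mem_coe, Finset.mem_filter] at hp hq
      simp only at hpq
      refine Prod.ext hpq ?_
      have h2 : p.2 - p.1 = q.2 - q.1 := by rw [hp.2, hq.2]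
      rw [hpq] at h2
      exact sub_left_inj.mp h2

/-- the rank of a set of complex numbers modulo the algebraic numbers -/
noncomputable def rk (A : Finset ℂ) : ℕ := Module.finrank ℚ (vectorSpan ℚ (io '' (A : Set ℂ)))

/-- The elements of `B` which stay in `B` under a translation, modulo algebraic factors, are affinely
independent. -/
theorem shift_card (A : Finset ℂ) (h0 : ∀ s ∈ A, s ≠ 0)
    (htr : ∀ s ∈ A, ∀ t ∈ A, s ≠ t → Transcendental ℚ (s / t)) (B : Finset ℂ) (hBA : B ⊆ A)
    (hB : ∀ b ∈ B, b ∈ Lt) (δ : ℂ ⧸ LQ) (hδ : δ ≠ 0) (S : Finset ℂ) (hSB : S ⊆ B)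
    (hS : ∀ s ∈ S, ∃ c ∈ B, io c = io s + δ) : S.card ≤ rk A + 1 := by
  classical
  have hdep : ∀ a ∈ S, ∀ b ∈ S, ∀ c ∈ S, Dep a b c := by
    intro a ha b hb c hc
    obtain ⟨a', ha', hae⟩ := hS a ha
    have ha0 := h0 a (hBA (hSB ha))
    have ha'0 := h0 a' (hBA ha')
    have hρ : Transcendental ℚ (a' / a) := by
      intro h
      rw [← io_eq ha'0 ha0] at h
      rw [h] at hae
      apply hδ
      exact left_eq_add.mp hae
    have hmem : ∀ s ∈ S, (a' / a) * s ∈ Lt := by
      intro s hs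
      obtain ⟨s', hs', hse⟩ := hS s hs
      have hs0 := h0 s (hBA (hSB hs))
      have hs'0 := h0 s' (hBA hs')
      have h1 : IsAlgebraic ℚ ((a' / a) * s / s') := by
        rw [← io_eq (mul_ne_zero (div_ne_zero ha'0 ha0) hs0) hs'0,
          io_mul (div_ne_zero ha'0 ha0) hs0, io_div ha'0 ha0, hae, hse]
        abel
      have h2 : (a' / a) * s = ((a' / a) * s / s') * s' := by field_simp
      rw [h2]
      exact Lt_mul h1 (hB s' hs')
    exact dep3 hρ (hB a (hSB ha)) (hB b (hSB hb)) (hB c (hSB hc)) (hmem a ha) (hmem b hb)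
      (hmem c hc)
  have haff := aff S (fun s hs => h0 s (hBA (hSB hs)))
    (fun s hs t ht => htr s (hBA (hSB hs)) t (hBA (hSB ht))) hdep
  have h1 := haff.card_le_finrank_succ
  rw [Fintype.card_coe] at h1
  refine h1.trans ?_
  apply Nat.add_le_add_right
  unfold rk
  have : FiniteDimensional ℚ (vectorSpan ℚ (io '' (A : Set ℂ))) :=
    finiteDimensional_vectorSpan_of_finite ℚ (A.finite_toSet.image io)
  apply Submodule.finrank_mono
  apply vectorSpan_mono
  rintro _ ⟨s, rfl⟩
  exact ⟨s, hBA (hSB s.2), rfl⟩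

open Classical in
/-- **The rank bound.** -/
theorem rank_bound (A : Finset ℂ) (h0 : ∀ s ∈ A, s ≠ 0)
    (htr : ∀ s ∈ A, ∀ t ∈ A, s ≠ t → Transcendental ℚ (s / t)) :
    (A.filter (· ∈ Lt)).card * ((A.filter (· ∈ Lt)).card - 1) ≤
      (rk A + 1) * ((A.image io - A.image io).card - 1) := by
  set B := A.filter (· ∈ Lt) with hB
  have hBA : B ⊆ A := Finset.filter_subset _ _
  have hBL : ∀ b ∈ B, b ∈ Lt := fun b hb => (Finset.mem_filter.mp hb).2
  have hinj : Set.InjOn io (A : Set ℂ) := by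
    intro s hs t ht hst
    by_contra hne
    exact htr s hs t ht hne ((io_eq (h0 s hs) (h0 t ht)).mp hst)
  have hcard : (B.image io).card = B.card :=
    Finset.card_image_of_injOn (hinj.mono (by exact_mod_cast hBA))
  rw [← hcard]
  apply count _ _ (Finset.image_subset_image hBA)
  intro δ hδ
  -- pull back to `B`
  have h1 : ((B.image io).filter (fun b => b + δ ∈ B.image io)) =
      (B.filter (fun b => io b + δ ∈ B.image io)).image io := by
    rw [Finset.filter_image]
  rw [h1]
  refine Finset.card_image_le.trans ?_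
  apply shift_card A h0 htr B hBA hBL δ hδ _ (Finset.filter_subset _ _)
  intro s hs
  rw [Finset.mem_filter, Finset.mem_image] at hs
  obtain ⟨c, hc, hce⟩ := hs.2
  exact ⟨c, hc, hce⟩

open Classical in
theorem card_diff_le (A : Finset ℂ) (h0 : ∀ s ∈ A, s ≠ 0) :
    (A.image io - A.image io).card ≤ (A / A).card := by
  have : A.image io - A.image io ⊆ (A / A).image io := by
    intro x hx
    rw [Finset.mem_sub] at hx
    obtain ⟨a, ha, b, hb, rfl⟩ := hx
    rw [Finset.mem_image] at ha hb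
    obtain ⟨a, ha, rfl⟩ := ha
    obtain ⟨b, hb, rfl⟩ := hb
    rw [← io_div (h0 a ha) (h0 b hb)]
    exact Finset.mem_image_of_mem io (Finset.div_mem_div ha hb)
  exact (Finset.card_le_card this).trans Finset.card_image_le

theorem frei_aux {V W : Type*} [AddCommGroup V] [Module ℚ V] [DecidableEq V] [AddCommGroup W]
    [Module ℚ W] [LinearOrder W] [IsOrderedAddMonoid W] (A : Finset V) (a0 : V) (ha0 : a0 ∈ A)
    (f : vectorSpan ℚ (A : Set V) ≃ₗ[ℚ] W) :
    Module.finrank ℚ (vectorSpan ℚ (A : Set V)) * A.card ≤ 3 * (A - A).card := by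
  classical
  have hfd : FiniteDimensional ℚ (vectorSpan ℚ (A : Set V)) :=
    finiteDimensional_vectorSpan_of_finite ℚ A.finite_toSet
  have hfdL : FiniteDimensional ℚ W := LinearEquiv.finiteDimensional f
  have hmem : ∀ a ∈ A, a - a0 ∈ vectorSpan ℚ (A : Set V) :=
    fun a ha => vsub_mem_vectorSpan ℚ ha ha0
  let ψ : V → W := fun x => if h : x - a0 ∈ vectorSpan ℚ (A : Set V) then f ⟨x - a0, h⟩ else 0
  have hψ : ∀ a ∈ A, ∀ b ∈ A, ∃ h : a - b ∈ vectorSpan ℚ (A : Set V),
      ψ a - ψ b = f ⟨a - b, h⟩ := by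
    intro a ha b hb
    refine ⟨vsub_mem_vectorSpan ℚ ha hb, ?_⟩
    simp only [ψ, dif_pos (hmem a ha), dif_pos (hmem b hb)]
    rw [← map_sub]
    congr 1
    apply Subtype.ext
    simp
  have h1 := Pool.Agent.N428.Ram.rank_mul_card_le A ψ (by
    intro a ha b hb c hc d hd h
    obtain ⟨h1, h2⟩ := hψ a ha b hb
    obtain ⟨h3, h4⟩ := hψ c hc d hd
    rw [h2, h4]
    congr 1
    exact Subtype.ext h)
  have hS : ∀ S : Submodule ℚ W, (∀ a ∈ A, ∀ b ∈ A, ψ a - ψ b ∈ S) →
      Module.finrank ℚ (vectorSpan ℚ (A : Set V)) ≤ Module.finrank ℚ S := by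
    intro S hS
    let g : W →ₗ[ℚ] V := (vectorSpan ℚ (A : Set V)).subtype.comp f.symm.toLinearMap
    have hle : vectorSpan ℚ (A : Set V) ≤ S.map g := by
      change Submodule.span ℚ ((A : Set V) -ᵥ (A : Set V)) ≤ _
      refine Submodule.span_le.mpr ?_
      intro x hx
      rw [Set.mem_vsub] at hx
      obtain ⟨a, ha, b, hb, rfl⟩ := hx
      obtain ⟨h2, h3⟩ := hψ a ha b hb
      refine ⟨ψ a - ψ b, hS a ha b hb, ?_⟩
      rw [h3]
      simp [g]
    exact (Submodule.finrank_mono hle).trans (Submodule.finrank_map_le g S)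
  refine le_trans (Nat.mul_le_mul_right _ (hS _ ?_)) h1
  intro a ha b hb
  exact Submodule.subset_span (Finset.mem_coe.mpr (Finset.sub_mem_sub
    (Finset.mem_image_of_mem _ ha) (Finset.mem_image_of_mem _ hb)))

/-- Freiman's lemma for differences (library) in an arbitrary rational space. -/
theorem frei {V : Type*} [AddCommGroup V] [Module ℚ V] [DecidableEq V] (A : Finset V) :
    Module.finrank ℚ (vectorSpan ℚ (A : Set V)) * A.card ≤ 3 * (A - A).card := by
  classical
  rcases A.eq_empty_or_nonempty with rfl | ⟨a0, ha0⟩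
  · simp
  have hfd : FiniteDimensional ℚ (vectorSpan ℚ (A : Set V)) :=
    finiteDimensional_vectorSpan_of_finite ℚ A.finite_toSet
  let f : vectorSpan ℚ (A : Set V) ≃ₗ[ℚ]
      Lex (Fin (Module.finrank ℚ (vectorSpan ℚ (A : Set V))) → ℚ) :=
    (Module.finBasis ℚ (vectorSpan ℚ (A : Set V))).equivFun
  exact frei_aux A a0 ha0 f

open Classical in
/-- **The bound in terms of the number of the quotients.** -/
theorem quot_bound (A : Finset ℂ) (h0 : ∀ s ∈ A, s ≠ 0)
    (htr : ∀ s ∈ A, ∀ t ∈ A, s ≠ t → Transcendental ℚ (s / t)) :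
    (A.filter (· ∈ Lt)).card * ((A.filter (· ∈ Lt)).card - 1) * A.card ≤ 4 * (A / A).card ^ 2 := by
  have hinj : Set.InjOn io (A : Set ℂ) := by
    intro s hs t ht hst
    by_contra hne
    exact htr s hs t ht hne ((io_eq (h0 s hs) (h0 t ht)).mp hst)
  have hcard : (A.image io).card = A.card := Finset.card_image_of_injOn hinj
  have h1 := rank_bound A h0 htr
  have h2 := frei (A.image io)
  rw [hcard, Finset.coe_image] at h2
  change rk A * A.card ≤ _ at h2
  have h3 := card_diff_le A h0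
  have h4 : A.card ≤ (A.image io - A.image io).card := by
    rw [← hcard]
    exact Finset.card_le_card_sub_self
  set D := (A.image io - A.image io).card with hD
  calc (A.filter (· ∈ Lt)).card * ((A.filter (· ∈ Lt)).card - 1) * A.card
      ≤ ((rk A + 1) * (D - 1)) * A.card := Nat.mul_le_mul_right _ h1
    _ ≤ ((rk A + 1) * D) * A.card := by gcongr; omega
    _ = (rk A * A.card + A.card) * D := by ring
    _ ≤ (3 * D + D) * D := by gcongr
    _ = 4 * D ^ 2 := by ring
    _ ≤ 4 * (A / A).card ^ 2 := by gcongr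

end Pool.Agent.U979.TW
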