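import Pool.Agent.U979.TW.Count

/-!
# Towers: finitely generated groups
-/

set_option autoImplicit false

namespace Pool.Agent.U979.TW

open Pool.Agent.H301R2.SSE Finset
open scoped Pointwise

theorem io_prod {ι : Type*} (T : Finset ι) (t : ι → ℂ) (ht : ∀ i, t i ≠ 0) (k : ι → ℤ) :
    io (∏ i ∈ T, t i ^ k i) = ∑ i ∈ T, (k i : ℚ) • io (t i) := by
  classical
  have hne : ∏ i ∈ T, t i ^ k i ≠ 0 :=
    Finset.prod_ne_zero_iff.mpr (fun i _ => zpow_ne_zero _ (ht i))
  have h1 : ∑ i ∈ T, (k i : ℚ) • io (t i) = LQ.mkQ (∑ i ∈ T, (k i : ℚ) • Complex.log (t i)) := by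
    rw [map_sum]
    apply Finset.sum_congr rfl
    intro i _
    rw [map_smul]
    rfl
  rw [h1]
  unfold io
  rw [← sub_eq_zero, ← map_sub, Submodule.mkQ_apply, Submodule.Quotient.mk_eq_zero, mem_LQ,
    Complex.exp_sub, Complex.exp_log hne, Complex.exp_sum]
  have h2 : ∀ i ∈ T, Complex.exp ((k i : ℚ) • Complex.log (t i)) = t i ^ k i := by
    intro i _
    rw [Rat.smul_def, Rat.cast_intCast, Complex.exp_int_mul, Complex.exp_log (ht i)]
  rw [Finset.prod_congr rfl h2, div_self hne]
  exact isAlgebraic_one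

/-- rank bound for a set of numbers `v ∏ t_i ^ k_i` -/
theorem rk_le {ι : Type*} [Fintype ι] (t : ι → ℂ) (ht : ∀ i, t i ≠ 0) (v : ℂ) (hv : v ≠ 0)
    (A : Finset ℂ) (hA : ∀ a ∈ A, ∃ k : ι → ℤ, a = v * ∏ i, t i ^ k i) :
    rk A ≤ Fintype.card ι := by
  classical
  unfold rk
  have hle : vectorSpan ℚ (io '' (A : Set ℂ)) ≤ Submodule.span ℚ (Set.range fun i => io (t i)) := by
    change Submodule.span ℚ ((io '' (A : Set ℂ)) -ᵥ (io '' (A : Set ℂ))) ≤ _
    refine Submodule.span_le.mpr ?_
    intro x hx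
    rw [Set.mem_vsub] at hx
    obtain ⟨_, ⟨a, ha, rfl⟩, _, ⟨b, hb, rfl⟩, rfl⟩ := hx
    obtain ⟨k, hk⟩ := hA a ha
    obtain ⟨l, hl⟩ := hA b hb
    have hp : ∀ k : ι → ℤ, ∏ i, t i ^ k i ≠ 0 := fun k =>
      Finset.prod_ne_zero_iff.mpr (fun i _ => zpow_ne_zero _ (ht i))
    rw [hk, hl, io_mul hv (hp k), io_mul hv (hp l), io_prod _ t ht, io_prod _ t ht, vsub_eq_sub,
      add_sub_add_left_eq_sub, ← Finset.sum_sub_distrib]
    refine Submodule.sum_mem _ (fun i _ => ?_)
    rw [← sub_smul]
    exact Submodule.smul_mem _ _ (Submodule.subset_span ⟨i, rfl⟩)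
  have hfd : FiniteDimensional ℚ (Submodule.span ℚ (Set.range fun i => io (t i))) :=
    FiniteDimensional.span_of_finite ℚ (Set.finite_range _)
  exact (Submodule.finrank_mono hle).trans (finrank_range_le_card _)

open Classical in
/-- **The rank bound for a finitely generated group.** -/
theorem group_bound {ι : Type*} [Fintype ι] (t : ι → ℂ)
    (ht : ∀ k : ι → ℤ, k ≠ 0 → Transcendental ℚ (∏ i, t i ^ k i)) (v : ℂ) (hv : v ≠ 0)
    (X : Finset (ι → ℤ)) :
    (X.filter (fun k => v * ∏ i, t i ^ k i ∈ Lt)).card *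
      ((X.filter (fun k => v * ∏ i, t i ^ k i ∈ Lt)).card - 1) ≤
      (Fintype.card ι + 1) * ((X - X).card - 1) := by
  have ht0 : ∀ i, t i ≠ 0 := by
    intro i h
    have h1 := ht (Pi.single i 1) (by
      intro h
      have := congrFun h i
      simp at this)
    apply h1
    have : ∏ j, t j ^ (Pi.single i (1 : ℤ) : ι → ℤ) j = 0 := by
      apply Finset.prod_eq_zero (Finset.mem_univ i)
      rw [Pi.single_eq_same, zpow_one, h]
    rw [this]
    exact isAlgebraic_zero
  have hp : ∀ k : ι → ℤ, ∏ i, t i ^ k i ≠ 0 := fun k =>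
    Finset.prod_ne_zero_iff.mpr (fun i _ => zpow_ne_zero _ (ht0 i))
  set f : (ι → ℤ) → ℂ := fun k => v * ∏ i, t i ^ k i with hf
  have hq : ∀ k l : ι → ℤ, f k / f l = ∏ i, t i ^ (k - l) i := by
    intro k l
    simp only [hf]
    rw [mul_div_mul_left _ _ hv, ← Finset.prod_div_distrib]
    apply Finset.prod_congr rfl
    intro i _
    rw [Pi.sub_apply, zpow_sub₀ (ht0 i)]
  have hinj : Function.Injective f := by
    intro k l hkl
    by_contra hne
    apply ht (k - l) (sub_ne_zero.mpr hne)
    rw [← hq, hkl, div_self (mul_ne_zero hv (hp l))]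
    exact isAlgebraic_one
  set A := X.image f with hA
  have h0 : ∀ s ∈ A, s ≠ 0 := by
    intro s hs
    rw [hA, Finset.mem_image] at hs
    obtain ⟨k, _, rfl⟩ := hs
    exact mul_ne_zero hv (hp k)
  have htr : ∀ s ∈ A, ∀ u ∈ A, s ≠ u → Transcendental ℚ (s / u) := by
    intro s hs u hu hsu
    rw [hA, Finset.mem_image] at hs hu
    obtain ⟨k, _, rfl⟩ := hs
    obtain ⟨l, _, rfl⟩ := hu
    rw [hq]
    apply ht
    exact sub_ne_zero.mpr (fun h => hsu (by rw [h]))
  have h1 := rank_bound A h0 htr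
  have h2 : rk A ≤ Fintype.card ι := rk_le t ht0 v hv A (by
    intro a ha
    rw [hA, Finset.mem_image] at ha
    obtain ⟨k, _, rfl⟩ := ha
    exact ⟨k, rfl⟩)
  have h3 : (A.image io - A.image io).card ≤ (X - X).card := by
    have h4 : A.image io - A.image io ⊆
        (X - X).image (fun k : ι → ℤ => ∑ i, (k i : ℚ) • io (t i)) := by
      intro x hx
      rw [Finset.mem_sub] at hx
      obtain ⟨a, ha, b, hb, rfl⟩ := hx
      rw [Finset.mem_image] at ha hb
      obtain ⟨a, ha, rfl⟩ := ha
      obtain ⟨b, hb, rfl⟩ := hb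
      rw [hA, Finset.mem_image] at ha hb
      obtain ⟨k, hk, rfl⟩ := ha
      obtain ⟨l, hl, rfl⟩ := hb
      rw [Finset.mem_image]
      refine ⟨k - l, Finset.sub_mem_sub hk hl, ?_⟩
      rw [← io_div (mul_ne_zero hv (hp k)) (mul_ne_zero hv (hp l)), hq, io_prod _ t ht0]
    exact (Finset.card_le_card h4).trans Finset.card_image_le
  have h4 : (A.filter (· ∈ Lt)).card = (X.filter (fun k => f k ∈ Lt)).card := by
    rw [hA, Finset.filter_image, Finset.card_image_of_injective _ hinj]
  rw [h4] at h1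
  refine h1.trans ?_
  gcongr

/-- **Baker's theorem for several bases and exponents.** -/
theorem baker_mat {m s : ℕ} (b : Fin m → ℝ) (hb : ∀ i, 0 < b i) (hba : ∀ i, IsAlgebraic ℚ (b i))
    (hbi : ∀ n : Fin m → ℤ, ∏ i, b i ^ n i = 1 → ∀ i, n i = 0) (c : Fin s → ℝ)
    (hc : ∀ j, IsAlgebraic ℚ (c j))
    (hci : ∀ (q : ℚ) (p : Fin s → ℚ), ∑ j, (p j : ℝ) * c j = q → ∀ j, p j = 0)
    (k : Fin m → Fin s → ℤ)
    (h : IsAlgebraic ℚ (∏ i, b i ^ (∑ j, (k i j : ℝ) * c j))) : ∀ i j, k i j = 0 := by
  classical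
  set l : Fin m → ℝ := fun i => Real.log (b i) with hl
  -- the logarithms are independent over the rationals
  have hlQ : ∀ q : Fin m → ℚ, ∑ i, (q i : ℝ) * l i = 0 → ∀ i, q i = 0 := by
    intro q hq
    obtain ⟨D, n, hD, hn⟩ := exists_int Finset.univ q
    have hn' : ∑ i, (n i : ℝ) * l i = 0 := by
      have : ∀ i ∈ Finset.univ, (n i : ℝ) * l i = (D : ℝ) * ((q i : ℝ) * l i) := by
        intro i hi
        have h1 : (n i : ℝ) = (D : ℝ) * (q i : ℝ) := by exact_mod_cast congrArg (Rat.cast : ℚ → ℝ) (hn i hi)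
        rw [h1]; ring
      rw [Finset.sum_congr rfl this, ← Finset.mul_sum, hq, mul_zero]
    have h2 : ∏ i, b i ^ n i = 1 := by
      have h3 : ∀ i ∈ Finset.univ, b i ^ n i = Real.exp ((n i : ℝ) * l i) := by
        intro i _
        rw [hl]
        simp only
        rw [mul_comm, ← Real.rpow_def_of_pos (hb i), Real.rpow_intCast]
      rw [Finset.prod_congr rfl h3, ← Real.exp_sum, hn', Real.exp_zero]
    intro i
    have h4 := hn i (Finset.mem_univ i)
    rw [hbi n h2 i, Int.cast_zero] at h4
    rcases mul_eq_zero.mp h4.symm with h5 | h5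
    · exact absurd (by exact_mod_cast h5) hD
    · exact h5
  set γ : Fin m → ℝ := fun i => ∑ j, (k i j : ℝ) * c j with hγ
  have hγa : ∀ i, IsAlgebraic ℚ (γ i) := by
    intro i
    rw [hγ]
    refine Finset.sum_induction _ (fun x : ℝ => IsAlgebraic ℚ x) (fun a b ha hb => ha.add hb)
      isAlgebraic_zero (fun j _ => ?_)
    exact (isAlgebraic_intCast (k i j)).mul (hc j)
  set lam : ℝ := ∑ i, γ i * l i with hlam
  have hexp : Real.exp lam = ∏ i, b i ^ (γ i) := by
    rw [hlam, Real.exp_sum]
    apply Finset.prod_congr rfl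
    intro i _
    rw [Real.rpow_def_of_pos (hb i), mul_comm]
  have halglam : IsAlgebraic ℚ (Complex.exp (lam : ℂ)) := by
    rw [← Complex.ofReal_exp, hexp]
    exact h.algebraMap (A := ℂ)
  have halgl : ∀ i, IsAlgebraic ℚ (Complex.exp (l i : ℂ)) := by
    intro i
    rw [← Complex.ofReal_exp, hl]
    simp only
    rw [Real.exp_log (hb i)]
    exact (hba i).algebraMap (A := ℂ)
  have toC : ∀ x : ℝ, IsAlgebraic ℚ x → IsAlgebraic ℚ (x : ℂ) := fun x hx => hx.algebraMap (A := ℂ)
  have hlC : LinearIndependent ℚ (fun i => (l i : ℂ)) := by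
    rw [Fintype.linearIndependent_iff]
    intro g hg
    apply hlQ g
    have h5 : ((∑ i, (g i : ℝ) * l i : ℝ) : ℂ) = 0 := by
      push_cast
      simpa [Rat.smul_def] using hg
    exact_mod_cast h5
  -- `lam` is a rational combination of the `l i`
  have hdep : ¬ LinearIndependent ℚ (fun o : Option (Fin m) => Option.elim o (lam : ℂ)
      (fun i => (l i : ℂ))) := by
    intro hli
    have h6 := Pool.Agent.H297R2.baker_inhom
      (fun o : Option (Fin m) => Option.elim o (lam : ℂ) (fun i => (l i : ℂ))) (by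
        intro o
        cases o with
        | none => exact halglam
        | some i => exact halgl i) hli 0 isAlgebraic_zero
      (fun o : Option (Fin m) => Option.elim o (1 : ℂ) (fun i => (-(γ i) : ℝ))) (by
        intro o
        cases o with
        | none => exact isAlgebraic_one
        | some i => exact toC _ (hγa i).neg) (by
        rw [Fintype.sum_option]
        simp only [Option.elim]
        rw [hlam]
        push_cast
        simp [Finset.sum_neg_distrib])
    have h7 := h6.2 none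
    simp at h7
  rw [Fintype.linearIndependent_iff] at hdep
  push Not at hdep
  obtain ⟨g, hg, o, ho⟩ := hdep
  rw [Fintype.sum_option] at hg
  simp only [Option.elim] at hg
  have hg' : (g none : ℝ) * lam + ∑ i, (g (some i) : ℝ) * l i = 0 := by
    have h8 : (((g none : ℝ) * lam + ∑ i, (g (some i) : ℝ) * l i : ℝ) : ℂ) = 0 := by
      push_cast
      simpa [Rat.smul_def] using hg
    exact_mod_cast h8
  have hg0 : g none ≠ 0 := by
    intro h9
    rw [h9, Rat.cast_zero, zero_mul, zero_add] at hg'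
    have h10 := hlQ (fun i => g (some i)) hg'
    cases o with
    | none => exact ho h9
    | some i => exact ho (h10 i)
  -- `γ i` is rational
  have hrat : ∀ i, γ i = ((-(g (some i)) / g none : ℚ) : ℝ) := by
    have hg0' : (g none : ℝ) ≠ 0 := by exact_mod_cast hg0
    have h11 := Pool.Agent.H297R2.baker_inhom (fun i => (l i : ℂ)) halgl hlC 0 isAlgebraic_zero
      (fun i => ((γ i + g (some i) / g none : ℝ) : ℂ)) (by
        intro i
        apply toC
        refine (hγa i).add ?_
        have : ((g (some i) : ℝ) / (g none : ℝ)) = ((g (some i) / g none : ℚ) : ℝ) := by push_cast; rfl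
        rw [this]
        exact isAlgebraic_algebraMap (R := ℚ) (A := ℝ) (g (some i) / g none)) (by
        rw [zero_add]
        have h12 : ∑ i, (γ i + g (some i) / g none : ℝ) * l i = 0 := by
          simp only [add_mul, Finset.sum_add_distrib]
          rw [← hlam]
          have h13 : ∑ i, (g (some i) : ℝ) / (g none : ℝ) * l i =
              (∑ i, (g (some i) : ℝ) * l i) / (g none : ℝ) := by
            rw [Finset.sum_div]
            apply Finset.sum_congr rfl
            intro i _
            ring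
          rw [h13]
          field_simp
          linear_combination hg'
        exact_mod_cast congrArg (fun x : ℝ => (x : ℂ)) h12)
    intro i
    have h14 := h11.2 i
    have h15 : γ i + (g (some i) : ℝ) / (g none : ℝ) = 0 := by exact_mod_cast h14
    push_cast
    linear_combination h15
  intro i j
  have h16 := hci (-(g (some i)) / g none) (fun j => (k i j : ℚ)) (by
    rw [← hrat i, hγ]
    simp) j
  exact_mod_cast h16

end Pool.Agent.U979.TW
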